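import Pool.Agent.R917.OM.SL1
import Pool.Agent.H667R3.D2
import Pool.Agent.Y685.TauA

set_option autoImplicit false

/-!
# The theorem of Schneider: `g₂, g₃, z, ℘(z)` are not all algebraic
-/

open Filter MvPolynomial
open scoped PeriodPair

noncomputable section

namespace Pool.Agent.H39E

open H667R3 Pool.Agent.W245.EB

theorem eval_one_var (P : MvPolynomial (Fin 2) ℂ) (x b : ℂ) :
    Polynomial.eval x (MvPolynomial.aeval ![Polynomial.X, Polynomial.C b] P) =
      MvPolynomial.eval ![x, b] P := by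
  induction P using MvPolynomial.induction_on with
  | C a => simp
  | add p q hp hq => simp [hp, hq]
  | mul_X p i hp =>
    rw [map_mul, map_mul, Polynomial.eval_mul, hp, aeval_X, eval_X]
    fin_cases i <;> simp

theorem lattice_add_nat (L : PeriodPair) {l : ℂ} (hl : l ∈ L.lattice) (n : ℕ) (z : ℂ) :
    z + n * l ∈ L.lattice ↔ z ∈ L.lattice := by
  have h1 : (n : ℂ) * l ∈ L.lattice := by
    have := L.lattice.smul_mem (n : ℤ) hl
    simpa using this
  exact add_mem_iff L h1

/-- `z` and `℘(z)` are algebraically independent -/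
theorem indep_id_wp (L : PeriodPair) (P : MvPolynomial (Fin 2) ℂ)
    (h : ∀ z, z ∉ L.lattice → MvPolynomial.eval ![z, ℘[L] z] P = 0) : P = 0 := by
  apply MvPolynomial.funext
  intro v
  rw [map_zero]
  obtain ⟨z, hz, hzv⟩ := exists_wp_eq L (v 1)
  have hQ : MvPolynomial.aeval ![Polynomial.X, Polynomial.C (v 1)] P = (0 : Polynomial ℂ) := by
    apply Polynomial.eq_zero_of_infinite_isRoot
    have hinj : Function.Injective (fun n : ℕ => z + n * L.ω₁) := by
      intro a b hab
      have h1 : (a : ℂ) * L.ω₁ = b * L.ω₁ := add_left_cancel hab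
      have h2 := mul_right_cancel₀ (ω₁_ne_zero L) h1
      exact_mod_cast h2
    refine (Set.infinite_range_of_injective hinj).mono ?_
    rintro _ ⟨n, rfl⟩
    change Polynomial.eval _ _ = 0
    rw [eval_one_var]
    have hl := L.ω₁_mem_lattice
    have h1 : (n : ℂ) * L.ω₁ ∈ L.lattice := by
      have := L.lattice.smul_mem (n : ℤ) hl
      simpa using this
    have h2 := h (z + n * L.ω₁) (fun hh => hz ((add_mem_iff L h1).mp hh))
    rwa [L.weierstrassP_add_coe z ⟨n * L.ω₁, h1⟩, hzv] at h2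
  have h3 := eval_one_var P (v 0) (v 1)
  rw [hQ, Polynomial.eval_zero] at h3
  have h4 : v = ![v 0, v 1] := by
    funext i
    fin_cases i <;> rfl
  rw [h4]
  exact h3.symm

theorem grE_of_Gr {f : ℂ → ℂ} (hf : Gr f) : GrE (fun x : Fin 1 → ℂ => f (x 0)) := by
  obtain ⟨C, hC, h⟩ := hf
  refine ⟨C, hC, fun z => (h (z 0)).trans (Real.exp_le_exp.mpr ?_)⟩
  have h1 : ‖z 0‖ ≤ ‖z‖ := norm_le_pi_norm z 0
  gcongr

theorem analytic_comp {f : ℂ → ℂ} {z : ℂ} {x : Fin 1 → ℂ} (hf : AnalyticAt ℂ f (x 0 + z)) :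
    AnalyticAt ℂ (fun y : Fin 1 → ℂ => f (y 0 + z)) x := by
  have h1 : AnalyticAt ℂ (fun y : Fin 1 → ℂ => y 0 + z) x := by
    have h2 : AnalyticAt ℂ (fun y : Fin 1 → ℂ => y 0) x :=
      (ContinuousLinearMap.proj (R := ℂ) (φ := fun _ : Fin 1 => ℂ) 0).analyticAt x
    exact h2.add analyticAt_const
  exact AnalyticAt.comp (g := f) (f := fun y : Fin 1 → ℂ => y 0 + z) hf h1

theorem fderiv_comp {f : ℂ → ℂ} {f' z : ℂ} {x : Fin 1 → ℂ} (hf : HasDerivAt f f' (x 0 + z)) :
    fderiv ℂ (fun y : Fin 1 → ℂ => f (y 0 + z)) x (Pi.single 0 1) = f' := by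
  have h2 : HasFDerivAt (fun y : Fin 1 → ℂ => y 0 + z)
      (ContinuousLinearMap.proj (R := ℂ) (φ := fun _ : Fin 1 => ℂ) 0) x :=
    ((ContinuousLinearMap.proj (R := ℂ) (φ := fun _ : Fin 1 => ℂ) 0).hasFDerivAt).add_const z
  have h3 := hf.comp_hasFDerivAt x h2
  have h4 : (f ∘ fun y : Fin 1 → ℂ => y 0 + z) = fun y : Fin 1 → ℂ => f (y 0 + z) := rfl
  rw [h4] at h3
  rw [h3.fderiv]
  simp

/-- the functions `z, ℘, ℘'` -/
def fn (L : PeriodPair) : Fin 3 → ℂ → ℂ := ![fun z => z, ℘[L], ℘'[L]]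

theorem core (L : PeriodPair) (F : IntermediateField ℚ ℂ) [FiniteDimensional ℚ F] {z u : ℂ}
    (hu : u ≠ 0) (h2 : L.g₂ ∈ F) (hzF : z ∈ F) (huF : u ∈ F)
    (hL : ∀ s : ℕ, s * u + z ∉ L.lattice) (hP : ∀ s : ℕ, ℘[L] (s * u + z) ∈ F)
    (hP' : ∀ s : ℕ, ℘'[L] (s * u + z) ∈ F) : False := by
  classical
  obtain ⟨O, hO⟩ : ∃ O : Set (Fin 1 → ℂ), O = {x | x 0 + z ∉ L.lattice} := ⟨_, rfl⟩
  have hOo : IsOpen O := by
    rw [hO]
    exact (isOpen_compl L).preimage (by fun_prop)
  have hz0 : z ∉ L.lattice := by simpa using hL 0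
  have hpt : ∀ (s : Fin 1 → Fin (AD.Snum 1 (Module.finrank ℚ F))),
      (∑ k, ((s k : ℕ) : ℂ) • (fun (_ : Fin 1) (_ : Fin 1) => u) k) 0 = ((s 0 : ℕ) : ℂ) * u := by
    intro s
    simp
  have han : ∀ p : Fin 3, ∀ w, w ∉ L.lattice → AnalyticAt ℂ (fn L p) w := by
    intro p w hw
    fin_cases p
    · exact analyticAt_id
    · exact L.analyticOnNhd_weierstrassP w hw
    · exact L.analyticOnNhd_derivWeierstrassP w hw
  have key := Pool.Agent.R917.OM.schneiderLang (n := 1) one_pos F (V := Fin 3)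
    (fun p x => fn L p (x 0 + z)) O hOo
    (fun p x hx => by
      rw [hO] at hx
      exact analytic_comp (han p _ hx))
    (fun _ _ => u)
    (by
      rw [linearIndependent_unique_iff]
      intro h0
      exact hu (congrFun h0 0))
    (fun s => by
      rw [hO, Set.mem_ofPred_eq, hpt]
      exact hL _)
    (fun p s => by
      simp only [hpt]
      fin_cases p
      · exact add_mem (mul_mem (natCast_mem F _) huF) hzF
      · exact hP _
      · exact hP' _)
    (fun _ => ![1, X 2, C 6 * X 1 ^ 2 - C (L.g₂ / 2)])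
    (by
      intro j p m
      have hC : ∀ a ∈ F, ∀ m, (C a : MvPolynomial (Fin 3) ℂ).coeff m ∈ F := by
        intro a ha m
        rw [coeff_C]
        split_ifs
        · exact ha
        · exact zero_mem F
      have h1F : (1 : ℂ) ∈ F := one_mem F
      fin_cases p
      · change (1 : MvPolynomial (Fin 3) ℂ).coeff m ∈ F
        rw [← C_1]
        exact hC _ h1F m
      · change (X 2 : MvPolynomial (Fin 3) ℂ).coeff m ∈ F
        rw [coeff_X]
        split_ifs
        · exact h1F
        · exact zero_mem F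
      · change (C 6 * X 1 ^ 2 - C (L.g₂ / 2) : MvPolynomial (Fin 3) ℂ).coeff m ∈ F
        rw [coeff_sub, coeff_C_mul]
        refine sub_mem (mul_mem (by exact_mod_cast natCast_mem F 6) ?_)
          (hC _ (div_mem h2 (by exact_mod_cast natCast_mem F 2)) m)
        rw [coeff_X_pow]
        split_ifs
        · exact h1F
        · exact zero_mem F)
    (by
      intro j p
      fin_cases p
      · change (1 : MvPolynomial (Fin 3) ℂ).totalDegree ≤ 2
        simp
      · change (X 2 : MvPolynomial (Fin 3) ℂ).totalDegree ≤ 2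
        simp
      · change (C 6 * X 1 ^ 2 - C (L.g₂ / 2) : MvPolynomial (Fin 3) ℂ).totalDegree ≤ 2
        refine (totalDegree_sub _ _).trans (max_le ((totalDegree_mul _ _).trans ?_) (by simp))
        rw [totalDegree_C, totalDegree_X_pow])
    (by
      intro j p x hx
      rw [hO, Set.mem_ofPred_eq] at hx
      have hj : j = 0 := Subsingleton.elim _ _
      subst hj
      fin_cases p
      · change fderiv ℂ (fun y : Fin 1 → ℂ => (fun w : ℂ => w) (y 0 + z)) x (Pi.single 0 1) = _
        rw [fderiv_comp (hasDerivAt_id' _)]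
        simp
      · change fderiv ℂ (fun y : Fin 1 → ℂ => ℘[L] (y 0 + z)) x (Pi.single 0 1) = _
        rw [fderiv_comp (hasDerivAt_weierstrassP L hx)]
        simp [fn]
      · change fderiv ℂ (fun y : Fin 1 → ℂ => ℘'[L] (y 0 + z)) x (Pi.single 0 1) = _
        rw [fderiv_comp (Pool.Agent.Y685.H2.hasDerivAt_wp'_all L hx)]
        simp [fn])
    (I := Fin 2) (by simp) ![0, 1] (by decide)
    (fun i x => ![fun _ => 1, fun w => sigma L w ^ 2] i (x 0 + z))
    (fun i x => ![fun w => w, fun w => Afun L z w] i (x 0 + z))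
    (by
      intro i x _
      fin_cases i
      · exact analyticAt_const
      · exact analytic_comp (f := fun w => sigma L w ^ 2)
          (((differentiable_sigma L).analyticAt _).pow 2))
    (by
      intro i x _
      fin_cases i
      · exact analytic_comp (f := fun w => w) analyticAt_id
      · exact analytic_comp (f := fun w => Afun L z w) ((differentiable_Afun L z).analyticAt _))
    (by
      intro i
      fin_cases i
      · exact grE_of_Gr (Gr.const 1)
      · refine grE_of_Gr (f := fun w => sigma L (w + z) ^ 2) ?_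
        have := ((Gr.sigma L).mul (Gr.sigma L)).shift z
        simpa only [pow_two] using this)
    (by
      intro i
      fin_cases i
      · refine grE_of_Gr (f := fun w => w + z) ?_
        have : Gr (fun w : ℂ => w) := by
          refine ⟨1, zero_le_one, fun w => ?_⟩
          have h1 := Real.add_one_le_exp (1 * (1 + ‖w‖ ^ 3))
          have h2 := le_one_add_cube (norm_nonneg w)
          linarith
        exact this.shift z
      · refine grE_of_Gr (f := fun w => Afun L z (w + z)) ?_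
        refine Gr.shift (f := fun w => Afun L z w) ?_ z
        unfold Afun
        exact ((Gr.const _).mul ((Gr.sigma L).mul (Gr.sigma L))).sub
          ((Gr.const _).mul (((Gr.sigma L).shift z).mul ((Gr.sigma L).shift (-z)))))
    (by
      intro i x hx
      rw [hO, Set.mem_ofPred_eq] at hx
      fin_cases i
      · change (1 : ℂ) * (x 0 + z) = x 0 + z
        rw [one_mul]
      · change sigma L (x 0 + z) ^ 2 * ℘[L] (x 0 + z) = Afun L z (x 0 + z)
        rw [wp_eq_Afun L hx hz0]
        have := sigma_ne_zero L hx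
        field_simp)
    (by
      intro i s
      fin_cases i
      · exact one_ne_zero
      · change sigma L (_ + z) ^ 2 ≠ 0
        rw [hpt]
        exact pow_ne_zero 2 (sigma_ne_zero L (hL _)))
  obtain ⟨P, hP0, hPz⟩ := key
  apply hP0
  apply indep_id_wp L
  intro w hw
  have h3 := hPz (fun _ => w - z) (by
    rw [hO, Set.mem_ofPred_eq, sub_add_cancel]
    exact hw) (by
      intro i
      fin_cases i
      · exact one_ne_zero
      · change sigma L (w - z + z) ^ 2 ≠ 0
        rw [sub_add_cancel]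
        exact pow_ne_zero 2 (sigma_ne_zero L hw))
  have h4 : (fun i : Fin 2 => (fun (p : Fin 3) (x : Fin 1 → ℂ) => fn L p (x 0 + z))
      ((![0, 1] : Fin 2 → Fin 3) i) (fun _ => w - z)) = ![w, ℘[L] w] := by
    funext i
    fin_cases i
    · change w - z + z = w
      ring
    · change ℘[L] (w - z + z) = ℘[L] w
      rw [sub_add_cancel]
  rw [h4] at h3
  exact h3

theorem mul_mem_field (L : PeriodPair) (F : IntermediateField ℚ ℂ) {z : ℂ}
    (hnt : ∀ n : ℕ, 0 < n → (n : ℂ) * z ∉ L.lattice) (h2 : L.g₂ ∈ F) (hP : ℘[L] z ∈ F)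
    (hP' : ℘'[L] z ∈ F) : ∀ n : ℕ, 0 < n → ℘[L] (n * z) ∈ F ∧ ℘'[L] (n * z) ∈ F := by
  have hnat : ∀ m : ℕ, (m : ℂ) ∈ F := fun m => natCast_mem F m
  have c2 : (2 : ℂ) ∈ F := by exact_mod_cast hnat 2
  have c4 : (4 : ℂ) ∈ F := by exact_mod_cast hnat 4
  have c6 : (6 : ℂ) ∈ F := by exact_mod_cast hnat 6
  have c12 : (12 : ℂ) ∈ F := by exact_mod_cast hnat 12
  have hQ : ∀ a ∈ F, 6 * a ^ 2 - L.g₂ / 2 ∈ F := fun a ha =>
    sub_mem (mul_mem c6 (pow_mem ha 2)) (div_mem h2 c2)
  intro n
  induction n with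
  | zero => intro h; exact absurd h (lt_irrefl 0)
  | succ n ih =>
    intro _
    rcases Nat.eq_zero_or_pos n with rfl | hn
    · simpa using ⟨hP, hP'⟩
    obtain ⟨i1, i2⟩ := ih hn
    have hz : z ∉ L.lattice := by simpa using hnt 1 one_pos
    rcases Nat.lt_or_ge n 2 with hn2 | hn2
    · have hn1 : n = 1 := by omega
      subst hn1
      have h2z : 2 * z ∉ L.lattice := by exact_mod_cast hnt 2 two_pos
      have e : ((1 + 1 : ℕ) : ℂ) * z = 2 * z := by norm_num
      rw [e, wp_two L h2z, wp'_two L h2z]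
      have hA := hQ _ hP
      have hd := mul_mem c4 (pow_mem hP' 2)
      refine ⟨add_mem (mul_mem (neg_mem c2) hP) (div_mem (pow_mem hA 2) hd), ?_⟩
      refine div_mem (add_mem (mul_mem (neg_mem c2) hP') (div_mem (sub_mem (mul_mem (mul_mem
        (mul_mem c2 hA) (mul_mem (mul_mem c12 hP) hP')) hd) (mul_mem (pow_mem hA 2)
          (mul_mem c4 (mul_mem (mul_mem c2 hP') hA)))) (pow_mem hd 2))) c2
    · have a1 : 2 * ((n : ℂ) * z) ∉ L.lattice := by
        have := hnt (2 * n) (by omega)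
        push_cast at this
        rwa [mul_assoc] at this
      have a2 : (n : ℂ) * z + z ∉ L.lattice := by
        have := hnt (n + 1) (by omega)
        push_cast at this
        rwa [add_mul, one_mul] at this
      have a3 : (n : ℂ) * z - z ∉ L.lattice := by
        have := hnt (n - 1) (by omega)
        rw [Nat.cast_sub (by omega : 1 ≤ n)] at this
        rwa [sub_mul, Nat.cast_one, one_mul] at this
      have e : ((n + 1 : ℕ) : ℂ) * z = (n : ℂ) * z + z := by push_cast; ring
      rw [e, wp_add L a1 hz a2 a3, wp'_add L a1 hz a2 a3]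
      have hA := hQ _ i1
      have hs := sub_mem i1 hP
      have hs' := sub_mem i2 hP'
      have hN := sub_mem (mul_mem hA hs) (mul_mem hs' i2)
      have hD := mul_mem c2 (pow_mem hs 2)
      refine ⟨sub_mem i1 (div_mem hN hD), sub_mem i2 (div_mem (sub_mem (mul_mem (sub_mem (add_mem
        (mul_mem (mul_mem (mul_mem c12 i1) i2) hs) (mul_mem hA i2)) (add_mem (mul_mem hA i2)
          (mul_mem hs' hA))) hD) (mul_mem hN (mul_mem c2 (mul_mem (mul_mem c2 hs) i2))))
            (pow_mem hD 2))⟩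

/-- **Schneider's theorem** on `g₂, g₃, z, ℘(z)` -/
theorem schneider (L : PeriodPair) {z : ℂ} (hz : z ∉ L.lattice) (h2 : IsAlgebraic ℚ L.g₂)
    (h3 : IsAlgebraic ℚ L.g₃) (hzA : IsAlgebraic ℚ z) (hP : IsAlgebraic ℚ (℘[L] z)) : False := by
  have hP' : IsAlgebraic ℚ (℘'[L] z) := by
    have h4 : IsAlgebraic ℚ (℘'[L] z ^ 2) := by
      rw [L.derivWeierstrassP_sq z hz]
      have c4 : IsAlgebraic ℚ (4 : ℂ) := by exact_mod_cast isAlgebraic_natCast (R := ℚ) (A := ℂ) 4
      exact ((c4.mul (hP.pow 3)).sub (h2.mul hP)).sub h3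
    exact IsAlgebraic.of_pow two_pos h4
  set S : Set ℂ := {z, ℘[L] z, ℘'[L] z, L.g₂} with hS
  have hSf : S.Finite := by
    rw [hS]
    exact Set.toFinite _
  have hSa : ∀ x ∈ S, IsIntegral ℚ x := by
    intro x hx
    rw [hS] at hx
    rcases hx with rfl | rfl | rfl | rfl
    · exact hzA.isIntegral
    · exact hP.isIntegral
    · exact hP'.isIntegral
    · exact h2.isIntegral
  have : Finite S := hSf
  have hfd : FiniteDimensional ℚ (IntermediateField.adjoin ℚ S) :=
    IntermediateField.finiteDimensional_adjoin hSa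
  have hsub := IntermediateField.subset_adjoin ℚ S
  have m1 : z ∈ IntermediateField.adjoin ℚ S := hsub (Or.inl rfl)
  have m2 : ℘[L] z ∈ IntermediateField.adjoin ℚ S := hsub (Or.inr (Or.inl rfl))
  have m3 : ℘'[L] z ∈ IntermediateField.adjoin ℚ S := hsub (Or.inr (Or.inr (Or.inl rfl)))
  have m4 : L.g₂ ∈ IntermediateField.adjoin ℚ S := hsub (Or.inr (Or.inr (Or.inr rfl)))
  have hz0 : z ≠ 0 := fun h => hz (h ▸ zero_mem _)
  by_cases hnt : ∀ n : ℕ, 0 < n → (n : ℂ) * z ∉ L.lattice
  · have h5 := mul_mem_field L _ hnt m4 m2 m3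
    have e : ∀ s : ℕ, (s : ℂ) * z + z = ((s + 1 : ℕ) : ℂ) * z := fun s => by push_cast; ring
    refine core L (IntermediateField.adjoin ℚ S) hz0 m4 m1 m1 (fun s => ?_) (fun s => ?_)
      (fun s => ?_)
    · rw [e]; exact hnt _ (Nat.succ_pos s)
    · rw [e]; exact (h5 _ (Nat.succ_pos s)).1
    · rw [e]; exact (h5 _ (Nat.succ_pos s)).2
  · push Not at hnt
    obtain ⟨n, hn, hnz⟩ := hnt
    have hn0 : (n : ℂ) ≠ 0 := by exact_mod_cast hn.ne'
    have hl : ∀ s : ℕ, (s : ℂ) * ((n : ℂ) * z) ∈ L.lattice := fun s => by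
      simpa using intCast_mul_mem L hnz (s : ℤ)
    refine core L (IntermediateField.adjoin ℚ S) (mul_ne_zero hn0 hz0) m4 m1
      (mul_mem (natCast_mem _ n) m1) (fun s => ?_) (fun s => ?_) (fun s => ?_)
    · rw [add_comm]
      exact fun hh => hz ((add_mem_iff L (hl s)).mp hh)
    · rw [add_comm, L.weierstrassP_add_coe z ⟨_, hl s⟩]
      exact m2
    · rw [add_comm, L.derivWeierstrassP_add_coe z ⟨_, hl s⟩]
      exact m3

end Pool.Agent.H39E
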