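import Mathlib
import Pool.Agent.H39E.Sch
import Pool.Agent.Y685.G9

/-!
# Chains of closed fields and the elliptic Schanuel inequality
-/

set_option autoImplicit false

open Filter Finset Module
open scoped Topology PeriodPair ComplexConjugate

noncomputable section

namespace Pool.Agent.H39E

open H667R3 Pool.Agent.W245.EB Pool.Agent.TH813.Ell Pool.Agent.Y685
open Pool.Agent.TH813.Rel (DF MK subset_cl rk_le_of_subset_cl cl_of_base exists_derF mem_cl
  toENat_trdeg)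
open Pool.Agent.Y776 (jf ET ET_finite)

variable {n : ℕ} {L L' : PeriodPair} {c : ℂ} {K : Subfield ℂ}

/-- the numbers of a homothetic lattice -/
theorem sub_cl' {C : IntermediateField ℚ ℂ} (h : Hm L L' c) {p : Fin n → ℂ}
    (hcδ : ∀ δ : Derivation ℚ ℂ ℂ, (∀ x ∈ {L.g₂, L.g₃} ∪ EP L p, δ x = 0) → δ c = 0) {m : ℕ}
    {v : Fin m → ℂ} (hv : ∀ i, v i ∈ Submodule.span (kL L) (Set.range p))
    (hvL : ∀ i, v i ∉ L.lattice) :
    {L'.g₂, L'.g₃} ∪ EP L' (fun i => c * v i) ⊆ (MK C).closure ({L.g₂, L.g₃} ∪ EP L p) := by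
  intro x hx
  rw [mem_cl_iff]
  intro δ _ hS
  have h2 : δ L.g₂ = 0 := hS _ (Or.inl (Or.inl rfl))
  have h3 : δ L.g₃ = 0 := hS _ (Or.inl (Or.inr rfl))
  have hc := hcδ δ hS
  have hd : ∀ (m : ℕ) (y : ℂ), δ y = 0 → δ (y / c ^ m) = 0 := by
    intro m y hy
    rw [Derivation.leibniz_div, hy, Derivation.leibniz_pow, hc]
    simp
  have hk : ∀ i, _ := fun i => kill_spanK h2 h3 (fun x hx => hS x (Or.inr hx)) (hv i) (hvL i)
  rcases hx with (rfl | rfl) | ⟨i, rfl⟩ | ⟨i, rfl⟩ | ⟨i, rfl⟩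
  · rw [h.g₂]; exact hd 4 _ h2
  · rw [h.g₃]; exact hd 6 _ h3
  · change δ (c * v i) = 0
    rw [D_mul, hc, (hk i).1]
    ring
  · change δ (zt L' (c * v i)) = 0
    rw [h.zt]
    have := hd 1 _ (hk i).2.1
    rwa [pow_one] at this
  · change δ (℘[L'] (c * v i)) = 0
    rw [h.wp]
    exact hd 2 _ (hk i).2.2

/-- a closed field as a vector space over the field of multiplications -/
def KS (hL : L ∈ LK K) : Submodule (kL L) ℂ where
  carrier := K
  add_mem' := add_mem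
  zero_mem' := zero_mem K
  smul_mem' := fun a _ hx => mul_mem (kL_mem hL a.2) hx

theorem mem_KS (hL : L ∈ LK K) {x : ℂ} : x ∈ KS hL ↔ x ∈ K := Iff.rfl

theorem EP_sub (hK : Fld K) (hL : L ∈ LK K) {x : Fin n → ℂ} {m : ℕ} {v : Fin m → ℂ}
    (hv : ∀ i, v i ∈ Submodule.span (kL L) (Set.range x)) (hvL : ∀ i, v i ∉ L.lattice) :
    EP L v ⊆ (MK (IFd K)).closure (EP L x) := by
  intro y hy
  rw [mem_cl_iff]
  intro δ hδ hS
  have h2 : δ L.g₂ = 0 := hδ _ (hK.g₂ L hL)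
  have h3 : δ L.g₃ = 0 := hδ _ (hK.g₃ L hL)
  have hk : ∀ i, _ := fun i => kill_spanK h2 h3 (fun x hx => hS x hx) (hv i) (hvL i)
  rcases hy with ⟨i, rfl⟩ | ⟨i, rfl⟩ | ⟨i, rfl⟩
  · exact (hk i).1
  · exact (hk i).2.1
  · exact (hk i).2.2

theorem EP_mem (hK : Fld K) (hL : L ∈ LK K) {x : Fin n → ℂ} (hx : ∀ i, x i ∈ K) :
    EP L x ⊆ K := by
  rintro y (⟨i, rfl⟩ | ⟨i, rfl⟩ | ⟨i, rfl⟩)
  · exact hx i
  · exact hK.zt _ hL _ (hx i)
  · exact hK.wp _ hL _ (hx i)

/-- one step -/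
theorem step (hK : Fld K) (hL : L ∈ LK K) (X : Submodule (kL L) ℂ)
    [FiniteDimensional (kL L) X] (hX : ¬ X ≤ KS hL) {x : Fin n → ℂ}
    (hx : X ≤ Submodule.span (kL L) (Set.range x)) :
    ((2 * finrank (kL L) X + 1 : ℕ) : ℕ∞) ≤ (MK (IFd K)).eRk (EP L x) +
      ((2 * finrank (kL L) (X ⊓ KS hL : Submodule (kL L) ℂ) : ℕ) : ℕ∞) := by
  obtain ⟨Y, hYX, hYA, hYn⟩ := exists_rel_compl (inf_le_left : X ⊓ KS hL ≤ X)
  have hYf : FiniteDimensional (kL L) Y := Submodule.finiteDimensional_of_le hYX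
  obtain ⟨y, hy, r, hr, hrY, hrL⟩ : ∃ y, y = finrank (kL L) Y ∧
      ∃ r : Fin y → ℂ, LinearIndependent (kL L) r ∧ (∀ i, r i ∈ Y) ∧
        ∀ i, r i ∉ L.lattice := ⟨_, rfl, exists_basis_off _⟩
  have hy0 : 0 < y := by
    rcases Nat.eq_zero_or_pos y with h0 | h0
    · exfalso
      apply hX
      have h1 : X ⊓ KS hL = X := Submodule.eq_of_le_of_finrank_eq inf_le_left (by omega)
      rw [← h1]
      exact inf_le_right
    · exact h0
  have hrind : ∀ a : Fin y → ℂ, (∀ i, a i ∈ kL L) → ∑ i, a i * r i ∈ K → a = 0 := by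
    intro a ha hs
    refine li_iff.1 hr a ha ?_
    have h1 : ∑ i, a i * r i ∈ Y := by
      have : ∑ i, a i * r i = ∑ i, (⟨a i, ha i⟩ : kL L) • r i := rfl
      rw [this]
      exact sum_mem (fun i _ => Submodule.smul_mem _ _ (hrY i))
    have h3 : ∑ i, a i * r i ∈ Y ⊓ (X ⊓ KS hL) := ⟨h1, hYX h1, hs⟩
    rw [hYA] at h3
    exact (Submodule.mem_bot _).1 h3
  have h1 := hK.fix (s := 0) hL (z := r) (t := ![]) hrind
    (fun _ _ => Subsingleton.elim _ _) (by omega)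
  have h2 : (ET (![] : Fin 0 → ℂ) ∪ EP L r) = EP L r := by
    apply Set.union_eq_self_of_subset_left
    rintro x (⟨i, -⟩ | ⟨i, -⟩) <;> exact i.elim0
  rw [h2] at h1
  have h4 := h1.trans (rk_le_of_subset_cl (EP_sub hK hL (fun i => hx (hYX (hrY i))) hrL))
  have h5 : 2 * finrank (kL L) X + 1 = (0 + 2 * y + 1) +
      2 * finrank (kL L) (X ⊓ KS hL : Submodule (kL L) ℂ) := by omega
  rw [h5, Nat.cast_add]
  exact add_le_add h4 le_rfl

/-- the closed fields attached to lists -/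
def CF : List ℂ → {K : Subfield ℂ // Fld K}
  | [] => ⟨(exists_Fld (Set.countable_empty)).choose, (exists_Fld (Set.countable_empty)).choose_spec.1⟩
  | a :: l => ⟨(exists_Fld (((CF l).2.cnt).insert a)).choose,
      (exists_Fld (((CF l).2.cnt).insert a)).choose_spec.1⟩

theorem CF_cons (a : ℂ) (l : List ℂ) : insert a ((CF l).1 : Set ℂ) ⊆ (CF (a :: l)).1 :=
  (exists_Fld (((CF l).2.cnt).insert a)).choose_spec.2

theorem CF_mem (a : ℂ) (l : List ℂ) : a ∈ (CF (a :: l)).1 := CF_cons a l (Set.mem_insert _ _)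

theorem CF_le (a : ℂ) (l : List ℂ) : (CF l).1 ≤ (CF (a :: l)).1 :=
  fun _ hx => CF_cons a l (Set.mem_insert_of_mem _ hx)

theorem LK_mono {K K' : Subfield ℂ} (h : K ≤ K') (hL : L ∈ LK K) : L ∈ LK K' :=
  ⟨h hL.1, h hL.2⟩

/-- the chain -/
theorem chain (e : ℕ) : ∀ (l : List ℂ) (hL : L ∈ LK (CF l).1) (n : ℕ) (x : Fin n → ℂ),
    (∀ a : List ℂ, a.length = e → ∃ v ∈ Submodule.span (kL L) (Set.range x),
      v ∉ (CF (a ++ l)).1) →
    ((2 * finrank (kL L) (Submodule.span (kL L) (Set.range x)) + e + 1 : ℕ) : ℕ∞) ≤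
      (MK (IFd (CF l).1)).eRk (EP L x) +
      ((2 * finrank (kL L) (Submodule.span (kL L) (Set.range x) ⊓ KS hL :
        Submodule (kL L) ℂ) : ℕ) : ℕ∞) := by
  induction e with
  | zero =>
    intro l hL n x h
    have : FiniteDimensional (kL L) (Submodule.span (kL L) (Set.range x)) :=
      FiniteDimensional.span_of_finite (kL L) (Set.finite_range x)
    obtain ⟨v, hv, hvK⟩ := h [] rfl
    exact step (CF l).2 hL _ (fun hle => hvK (hle hv)) le_rfl
  | succ e ih =>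
    intro l hL n x h
    set X := Submodule.span (kL L) (Set.range x) with hX
    have : FiniteDimensional (kL L) X :=
      FiniteDimensional.span_of_finite (kL L) (Set.finite_range x)
    have hmono : ∀ (a l : List ℂ), (CF l).1 ≤ (CF (a ++ l)).1 := by
      intro a l
      induction a with
      | nil => exact le_rfl
      | cons b a ih => exact ih.trans (CF_le b _)
    obtain ⟨w, hwX, hwK⟩ : ∃ w ∈ X, w ∉ (CF l).1 := by
      obtain ⟨v, hv, hv'⟩ := h (List.replicate (e + 1) 0) (by simp)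
      exact ⟨v, hv, fun h' => hv' (hmono _ _ h')⟩
    have hL1 : L ∈ LK (CF (w :: l)).1 := LK_mono (CF_le w l) hL
    have h1 := ih (w :: l) hL1 n x (fun a ha => by
      obtain ⟨v, hv, hv'⟩ := h (a ++ [w]) (by simp [ha])
      refine ⟨v, hv, ?_⟩
      rwa [List.append_assoc, List.singleton_append] at hv')
    rw [← hX] at h1
    set X₁ : Submodule (kL L) ℂ := X ⊓ KS hL1 with hX₁
    have hX₁X : X₁ ≤ X := inf_le_left
    have hX₁f : FiniteDimensional (kL L) X₁ := Submodule.finiteDimensional_of_le hX₁X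
    obtain ⟨y, hy, r, hr, hrY, hrL⟩ : ∃ y, y = finrank (kL L) X₁ ∧
      ∃ r : Fin y → ℂ, LinearIndependent (kL L) r ∧ (∀ i, r i ∈ X₁) ∧
        ∀ i, r i ∉ L.lattice := ⟨_, rfl, exists_basis_off _⟩
    have hspan : X₁ ≤ Submodule.span (kL L) (Set.range r) := by
      have h2 : Submodule.span (kL L) (Set.range r) ≤ X₁ := by
        rw [Submodule.span_le]
        rintro _ ⟨i, rfl⟩
        exact hrY i
      have h3 : finrank (kL L) (Submodule.span (kL L) (Set.range r)) = finrank (kL L) X₁ := by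
        rw [finrank_span_eq_card hr, Fintype.card_fin, hy]
      exact (Submodule.eq_of_le_of_finrank_eq h2 h3).ge
    have hwX₁ : w ∈ X₁ := ⟨hwX, CF_mem w l⟩
    have h2 := step (CF l).2 hL X₁ (fun hle => hwK (hle hwX₁)) hspan
    have h3 : X₁ ⊓ KS hL = X ⊓ KS hL := by
      rw [hX₁, inf_assoc]
      congr 1
      exact inf_eq_right.2 (fun _ hv => CF_le w l hv)
    rw [h3] at h2
    have h4 := union_ge (k := IFd (CF l).1) (K := (CF (w :: l)).1) (CF (w :: l)).2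
      (fun v => CF_le w l v.2) (EP_finite (L := L) r) (EP_finite (L := L) x)
      (EP_mem (CF (w :: l)).2 hL1 (fun i => (hrY i).2))
    have h5 : (MK (IFd (CF l).1)).eRk (EP L r ∪ EP L x) ≤ (MK (IFd (CF l).1)).eRk (EP L x) := by
      apply rk_le_of_subset_cl
      rintro v (hv | hv)
      · exact EP_sub (CF l).2 hL (fun i => hX₁X (hrY i)) hrL hv
      · exact subset_cl _ hv
    have h6 := h4.trans h5
    obtain ⟨R, hR, -⟩ := trd_eq (IFd (CF l).1) (EP_finite (L := L) x)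
    obtain ⟨R₁, hR₁, -⟩ := trd_eq (IFd (CF (w :: l)).1) (EP_finite (L := L) x)
    obtain ⟨R₂, hR₂, -⟩ := trd_eq (IFd (CF l).1) (EP_finite (L := L) r)
    rw [hR₁] at h1 h6
    rw [hR₂] at h2 h6
    rw [hR] at h6 ⊢
    have i1 : 2 * finrank (kL L) X + e + 1 ≤ R₁ + 2 * finrank (kL L) X₁ := by exact_mod_cast h1
    have i2 : 2 * finrank (kL L) X₁ + 1 ≤ R₂ +
      2 * finrank (kL L) (X ⊓ KS hL : Submodule (kL L) ℂ) := by exact_mod_cast h2
    have i3 : R₂ + R₁ ≤ R := by exact_mod_cast h6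
    have i4 : 2 * finrank (kL L) X + (e + 1) + 1 ≤ R +
      2 * finrank (kL L) (X ⊓ KS hL : Submodule (kL L) ℂ) := by omega
    exact_mod_cast i4

end Pool.Agent.H39E
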