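import Mathlib
import Pool.Agent.H39E.Red

/-!
# The elliptic Schanuel inequality and special ratios
-/

set_option autoImplicit false

open Filter Finset Module
open scoped Topology PeriodPair ComplexConjugate

noncomputable section

namespace Pool.Agent.H39E

open H667R3 Pool.Agent.W245.EB Pool.Agent.TH813.Ell Pool.Agent.Y685
open Pool.Agent.TH813.Rel (DF MK subset_cl rk_le_of_subset_cl cl_of_base exists_derF mem_cl
  toENat_trdeg)
open Pool.Agent.Y776 (jf ET ET_finite)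

variable {n : ℕ} {L L' : PeriodPair} {c : ℂ} {K : Subfield ℂ}

theorem span_scale (h : Hm L L' c) {p : Fin n → ℂ} {x : ℂ}
    (hx : x ∈ Submodule.span (kL L) (Set.range p)) :
    c * x ∈ Submodule.span (kL L') (Set.range fun i => c * p i) := by
  obtain ⟨a, rfl⟩ := (Submodule.mem_span_range_iff_exists_fun (kL L)).1 hx
  rw [Submodule.mem_span_range_iff_exists_fun]
  refine ⟨fun i => ⟨a i, h.kL.2 (a i).2⟩, ?_⟩
  rw [mul_sum]
  refine sum_congr rfl (fun i _ => ?_)
  change (a i : ℂ) * (c * p i) = c * ((a i : ℂ) * p i)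
  ring

theorem li_scale (h : Hm L L' c) {p : Fin n → ℂ} (hp : LinearIndependent (kL L) p) :
    LinearIndependent (kL L') (fun i => c * p i) := by
  rw [li_iff]
  intro a ha h0
  refine li_iff.1 hp a (fun i => h.kL.1 (ha i)) ?_
  have h3 : c * ∑ i, a i * p i = 0 := by
    rw [mul_sum, ← h0]
    exact sum_congr rfl (fun i _ => by ring)
  exact (mul_eq_zero.1 h3).resolve_left h.c0

/-- Schneider's theorem as a rank -/
theorem rank_one {z : ℂ} (hz : z ∉ L.lattice) (hzA : IsAlgebraic ℚ z) {A : Set ℂ}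
    (hA : A.Finite) (h2 : L.g₂ ∈ A) (h3 : L.g₃ ∈ A) (hP : ℘[L] z ∈ A) :
    ((1 : ℕ) : ℕ∞) ≤ (MK ℚ).eRk A := by
  obtain ⟨r, hr, hr'⟩ := trd_eq ℚ hA
  rw [hr]
  rcases Nat.eq_zero_or_pos r with rfl | h0
  · exfalso
    rw [Nat.cast_zero] at hr'
    have h1 : Algebra.IsAlgebraic ℚ (IntermediateField.adjoin ℚ A) :=
      trdeg_eq_zero_iff.1 hr'
    have h4 : ∀ x ∈ A, IsAlgebraic ℚ x := by
      intro x hx
      have h5 := h1.isAlgebraic (⟨x, IntermediateField.subset_adjoin ℚ A hx⟩ :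
        IntermediateField.adjoin ℚ A)
      exact h5.algebraMap (A := ℂ)
    exact schneider L hz (h4 _ h2) (h4 _ h3) hzA (h4 _ hP)
  · exact_mod_cast h0

theorem main {p : Fin n → ℂ} (hpL : ∀ i, p i ∉ L.lattice) (hp : LinearIndependent (kL L) p)
    {m e : ℕ} (hm0 : 1 ≤ m) (hmn : m < n)
    (hm : ∀ c : ℂ, c ≠ 0 → ∀ U ≤ Submodule.span (kL L) (Set.range p),
      (∀ x ∈ U, c * x ∈ (CF []).1) → finrank (kL L) U ≤ m)
    (he : ∀ c : ℂ, c ≠ 0 → ∀ a : List ℂ, a.length = e →
      ∃ x ∈ Submodule.span (kL L) (Set.range p), c * x ∉ (CF a).1) :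
    ((min (2 * n) (2 * (n - m) + 2 + e) : ℕ) : ℕ∞) ≤
      (MK ℚ).eRk ({L.g₂, L.g₃} ∪ EP L p) := by
  classical
  obtain ⟨K, hKdef⟩ : ∃ K : Subfield ℂ, K = (CF []).1 := ⟨_, rfl⟩
  have hK : Fld K := hKdef ▸ (CF []).2
  have hk : ∀ x : ℚ, algebraMap ℚ ℂ x ∈ K := fun x => by
    rw [eq_ratCast]
    exact SubfieldClass.ratCast_mem K x
  have hfin : ({L.g₂, L.g₃} ∪ EP L p).Finite := (Set.toFinite _).union (EP_finite p)
  by_cases hj : jv L ∈ K
  swap
  · have hpQ : LinearIndependent ℚ p := hp.restrict_scalars (fun a b hab => by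
      have h1 : ((algebraMap ℚ (kL L) a : kL L) : ℂ) = ((algebraMap ℚ (kL L) b : kL L) : ℂ) := by
        have h2 : algebraMap ℚ (kL L) a = algebraMap ℚ (kL L) b := by
          simpa [Algebra.smul_def] using hab
        rw [h2]
      simpa using h1)
    have h1 := (hK.gen' L hj hpQ).trans (base_le hk hfin)
    refine le_trans ?_ h1
    exact_mod_cast min_le_left _ _
  obtain ⟨L', c, h, hL', hcδ⟩ := exists_norm hK hj
  have hc0 := h.c0
  have hkK : ∀ a ∈ kL L, a ∈ K := fun a ha => kL_mem hL' (h.kL.2 ha)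
  set X := Submodule.span (kL L) (Set.range p) with hX
  have hXf : FiniteDimensional (kL L) X :=
    FiniteDimensional.span_of_finite (kL L) (Set.finite_range p)
  have hXn : finrank (kL L) X = n := by
    rw [hX, finrank_span_eq_card hp, Fintype.card_fin]
  let cK : Submodule (kL L) ℂ :=
    { carrier := {x | c * x ∈ K}
      add_mem' := fun {a b} ha hb => by
        rw [Set.mem_ofPred_eq] at ha hb ⊢
        rw [mul_add]; exact add_mem ha hb
      zero_mem' := by
        rw [Set.mem_ofPred_eq, mul_zero]; exact zero_mem K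
      smul_mem' := fun a x hx => by
        rw [Set.mem_ofPred_eq] at hx ⊢
        have e : c * (a • x) = (a : ℂ) * (c * x) := by
          change c * ((a : ℂ) * x) = _
          ring
        rw [e]
        exact mul_mem (hkK _ a.2) hx }
  have hAX : X ⊓ cK ≤ X := inf_le_left
  have hAf : FiniteDimensional (kL L) (X ⊓ cK : Submodule (kL L) ℂ) :=
    Submodule.finiteDimensional_of_le hAX
  by_cases hbot : X ⊓ cK = ⊥
  · have hind : ∀ a : Fin n → ℂ, (∀ i, a i ∈ kL L') → ∑ i, a i * (c * p i) ∈ K → a = 0 := by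
      intro a ha hs
      refine li_iff.1 hp a (fun i => h.kL.1 (ha i)) ?_
      have h1 : ∑ i, a i * p i ∈ X := by
        have : ∑ i, a i * p i = ∑ i, (⟨a i, h.kL.1 (ha i)⟩ : kL L) • p i := rfl
        rw [this]
        exact sum_mem (fun i _ => Submodule.smul_mem _ _ (Submodule.subset_span ⟨i, rfl⟩))
      have h2 : ∑ i, a i * p i ∈ cK := by
        change c * ∑ i, a i * p i ∈ K
        rw [mul_sum]
        have : ∑ i, c * (a i * p i) = ∑ i, a i * (c * p i) := sum_congr rfl (fun i _ => by ring)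
        rw [this]
        exact hs
      have h3 : ∑ i, a i * p i ∈ X ⊓ cK := ⟨h1, h2⟩
      rw [hbot] at h3
      exact (Submodule.mem_bot _).1 h3
    have h1 := hK.fix (s := 0) hL' (z := fun i => c * p i) (t := ![]) hind
      (fun _ _ => Subsingleton.elim _ _) (by omega)
    have h2 : (ET (![] : Fin 0 → ℂ) ∪ EP L' (fun i => c * p i)) = EP L' (fun i => c * p i) := by
      apply Set.union_eq_self_of_subset_left
      rintro x (⟨i, -⟩ | ⟨i, -⟩) <;> exact i.elim0
    rw [h2] at h1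
    have h3 := h1.trans (base_le (k := ℚ) hk (EP_finite _))
    have h4 : (MK ℚ).eRk (EP L' (fun i => c * p i)) ≤ (MK ℚ).eRk ({L.g₂, L.g₃} ∪ EP L p) := by
      rw [← MK_FR ℚ]
      apply rk_le_of_subset_cl
      intro x hx
      exact sub_cl h hcδ (fun i => Submodule.subset_span ⟨i, rfl⟩) hpL (Or.inr hx)
    refine le_trans ?_ (h3.trans h4)
    exact_mod_cast (min_le_left _ _).trans (by omega : 2 * n ≤ 0 + 2 * n + 1)
  · -- a point of the field outside the lattice
    obtain ⟨w, hwX, hwK, hwL⟩ : ∃ w, w ∈ X ∧ c * w ∈ K ∧ w ∉ L.lattice := by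
      obtain ⟨q, -, hqX, hqL⟩ := exists_basis_off (X ⊓ cK)
      have hpos : 0 < finrank (kL L) (X ⊓ cK : Submodule (kL L) ℂ) := by
        rw [Nat.pos_iff_ne_zero]
        intro h0
        exact hbot (Submodule.finrank_eq_zero.1 h0)
      exact ⟨q ⟨0, hpos⟩, (hqX _).1, (hqX _).2, hqL _⟩
    have hw0 : w ≠ 0 := fun h0 => hwL (h0 ▸ zero_mem _)
    have hwi : w⁻¹ ≠ 0 := inv_ne_zero hw0
    obtain ⟨L₁, hL₁⟩ : ∃ L₁ : PeriodPair, L₁ = scl L w⁻¹ hwi := ⟨_, rfl⟩
    have h₁ : Hm L L₁ w⁻¹ := hL₁ ▸ Hm_scl L hwi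
    have hmemK : ∀ x, c * x ∈ K → w⁻¹ * x ∈ K := by
      intro x hx
      have e1 : w⁻¹ * x = (c * x) / (c * w) := by field_simp
      rw [e1]
      exact div_mem hx hwK
    have hLK : L₁ ∈ LK K := by
      rw [hL₁]
      exact ⟨hmemK _ (lat_mem hL' ((h.mem _).2 L.ω₁_mem_lattice)),
        hmemK _ (lat_mem hL' ((h.mem _).2 L.ω₂_mem_lattice))⟩
    have hLK0 : L₁ ∈ LK (CF []).1 := hKdef ▸ hLK
    have h1 := chain e [] hLK0 n (fun i => w⁻¹ * p i) (fun a ha => by
      obtain ⟨x, hx, hx'⟩ := he w⁻¹ hwi a ha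
      rw [List.append_nil]
      exact ⟨w⁻¹ * x, span_scale h₁ hx, hx'⟩)
    rw [finrank_span_eq_card (li_scale h₁ hp), Fintype.card_fin] at h1
    have h2 : finrank (kL L₁) (Submodule.span (kL L₁) (Set.range fun i => w⁻¹ * p i) ⊓
        KS hLK0 : Submodule (kL L₁) ℂ) ≤ m := by
      have hf : FiniteDimensional (kL L₁) (Submodule.span (kL L₁)
          (Set.range fun i => w⁻¹ * p i)) :=
        FiniteDimensional.span_of_finite (kL L₁) (Set.finite_range _)
      have hf2 : FiniteDimensional (kL L₁) (Submodule.span (kL L₁)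
          (Set.range fun i => w⁻¹ * p i) ⊓ KS hLK0 : Submodule (kL L₁) ℂ) :=
        Submodule.finiteDimensional_of_le inf_le_left
      obtain ⟨y, hy, q, hq, hqX, -⟩ : ∃ y, y = finrank (kL L₁) (Submodule.span (kL L₁)
          (Set.range fun i => w⁻¹ * p i) ⊓ KS hLK0 : Submodule (kL L₁) ℂ) ∧
          ∃ q : Fin y → ℂ, LinearIndependent (kL L₁) q ∧ (∀ i, q i ∈ Submodule.span (kL L₁)
          (Set.range fun i => w⁻¹ * p i) ⊓ KS hLK0) ∧
          ∀ i, q i ∉ L₁.lattice := ⟨_, rfl, exists_basis_off _⟩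
      rw [← hy]
      have hq' := li_scale h₁.symm hq
      rw [inv_inv] at hq'
      have h3 := hm w⁻¹ hwi (Submodule.span (kL L) (Set.range fun i => w * q i)) (by
        rw [Submodule.span_le]
        rintro _ ⟨i, rfl⟩
        have h4 := span_scale h₁.symm (hqX i).1
        rw [inv_inv] at h4
        have h5 : (fun i => w * (w⁻¹ * p i)) = p := by
          funext i
          field_simp
        rw [h5] at h4
        exact h4) (by
        intro x hx
        obtain ⟨a, rfl⟩ := (Submodule.mem_span_range_iff_exists_fun (kL L)).1 hx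
        rw [mul_sum]
        refine sum_mem (fun i _ => ?_)
        have e1 : w⁻¹ * (a i • (w * q i)) = (a i : ℂ) * q i := by
          change w⁻¹ * ((a i : ℂ) * (w * q i)) = _
          field_simp
        rw [e1]
        exact mul_mem (hKdef ▸ hkK _ (a i).2) (hqX i).2)
      rwa [finrank_span_eq_card hq', Fintype.card_fin] at h3
    -- the numbers in the field
    obtain ⟨A, hA⟩ : ∃ A : Set ℂ, A = {L₁.g₂, L₁.g₃} ∪ EP L₁ (fun _ : Fin 1 => w⁻¹ * w) :=
      ⟨_, rfl⟩
    have hAfin : A.Finite := by rw [hA]; exact (Set.toFinite _).union (EP_finite _)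
    have hAK : A ⊆ K := by
      rw [hA]
      rintro x ((rfl | rfl) | hx)
      · exact hK.g₂ _ hLK
      · exact hK.g₃ _ hLK
      · exact EP_mem hK hLK (fun _ => by rw [inv_mul_cancel₀ hw0]; exact one_mem K) hx
    have h3 : ((1 : ℕ) : ℕ∞) ≤ (MK ℚ).eRk A := by
      refine rank_one (L := L₁) (z := w⁻¹ * w) (h₁.notMem.2 hwL) ?_ hAfin ?_ ?_ ?_
      · rw [inv_mul_cancel₀ hw0]
        exact isAlgebraic_one
      · rw [hA]; exact Or.inl (Or.inl rfl)
      · rw [hA]; exact Or.inl (Or.inr rfl)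
      · rw [hA]; exact Or.inr (Or.inr (Or.inr ⟨0, rfl⟩))
    have h4 := union_ge (k := ℚ) hK hk hAfin (EP_finite (L := L₁) (fun i => w⁻¹ * p i)) hAK
    have hw1 : ∀ δ : Derivation ℚ ℂ ℂ, (∀ x ∈ {L.g₂, L.g₃} ∪ EP L p, δ x = 0) →
        δ w⁻¹ = 0 := by
      intro δ hδ
      have h5 := kill_spanK (hδ _ (Or.inl (Or.inl rfl))) (hδ _ (Or.inl (Or.inr rfl)))
        (fun x hx => hδ x (Or.inr hx)) hwX hwL
      rw [Derivation.leibniz_inv, h5.1, smul_zero]
    have h5 : (MK ℚ).eRk (A ∪ EP L₁ (fun i => w⁻¹ * p i)) ≤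
        (MK ℚ).eRk ({L.g₂, L.g₃} ∪ EP L p) := by
      rw [← MK_FR ℚ]
      apply rk_le_of_subset_cl
      rintro x (hx | hx)
      · rw [hA] at hx
        exact sub_cl' h₁ hw1 (v := fun _ : Fin 1 => w) (fun _ => hwX) (fun _ => hwL) hx
      · exact sub_cl' h₁ hw1 (v := p) (fun i => Submodule.subset_span ⟨i, rfl⟩) hpL (Or.inr hx)
    have h6 := h4.trans h5
    subst hKdef
    obtain ⟨R, hR, -⟩ := trd_eq ℚ hfin
    obtain ⟨R₁, hR₁, -⟩ := trd_eq (IFd (CF []).1) (EP_finite (L := L₁) (fun i => w⁻¹ * p i))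
    obtain ⟨R₂, hR₂, -⟩ := trd_eq ℚ hAfin
    rw [hR₁] at h1 h6
    rw [hR₂] at h3 h6
    rw [hR] at h6 ⊢
    have i1 : 2 * n + e + 1 ≤ R₁ + 2 * finrank (kL L₁) (Submodule.span (kL L₁)
      (Set.range fun i => w⁻¹ * p i) ⊓ KS hLK0 : Submodule (kL L₁) ℂ) := by exact_mod_cast h1
    have i2 : 1 ≤ R₂ := by exact_mod_cast h3
    have i3 : R₂ + R₁ ≤ R := by exact_mod_cast h6
    have i4 : min (2 * n) (2 * (n - m) + 2 + e) ≤ R := by
      refine (min_le_right _ _).trans ?_
      omega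
    exact_mod_cast i4

end Pool.Agent.H39E
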