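import Mathlib
import Pool.Agent.H39E.Main

/-!
# Generic multipliers: linear algebra
-/

set_option autoImplicit false

open Filter Finset Module
open scoped Topology PeriodPair ComplexConjugate

noncomputable section

namespace Pool.Agent.H39E

open H667R3 Pool.Agent.W245.EB Pool.Agent.TH813.Ell Pool.Agent.Y685
open Pool.Agent.TH813.Rel (DF MK subset_cl rk_le_of_subset_cl cl_of_base exists_derF mem_cl
  toENat_trdeg)
open Pool.Agent.Y776 (jf ET ET_finite)

variable {n : ℕ} {L L' : PeriodPair} {c : ℂ} {K : Subfield ℂ}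

/-- the dimension of the space generated by a family -/
def dE (E : IntermediateField ℚ ℂ) {n : ℕ} (p : Fin n → ℂ) : ℕ :=
  finrank E (Submodule.span E (Set.range p))

theorem fd_span (E : IntermediateField ℚ ℂ) {n : ℕ} (p : Fin n → ℂ) :
    FiniteDimensional E (Submodule.span E (Set.range p)) :=
  FiniteDimensional.span_of_finite E (Set.finite_range p)

theorem dE_mono {E : IntermediateField ℚ ℂ} {n m : ℕ} {p : Fin n → ℂ} {q : Fin m → ℂ}
    (h : ∀ i, q i ∈ Submodule.span E (Set.range p)) : dE E q ≤ dE E p := by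
  have := fd_span E p
  apply Submodule.finrank_mono
  rw [Submodule.span_le]
  rintro _ ⟨i, rfl⟩
  exact h i

theorem dE_li {E : IntermediateField ℚ ℂ} {n : ℕ} {p : Fin n → ℂ} (h : LinearIndependent E p) :
    dE E p = n := by
  rw [dE, finrank_span_eq_card h, Fintype.card_fin]

theorem mem_clo_span {E : IntermediateField ℚ ℂ} {F : IntermediateField ℚ ℂ} (hE : E ≤ F)
    {n : ℕ} {p : Fin n → ℂ} (hp : ∀ i, p i ∈ F) {v : ℂ}
    (hv : v ∈ Submodule.span E (Set.range p)) : v ∈ F := by
  obtain ⟨a, rfl⟩ := (Submodule.mem_span_range_iff_exists_fun E).1 hv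
  exact sum_mem (fun i _ => mul_mem (hE (a i).2) (hp i))

/-- generators of a space modulo a subspace -/
theorem exists_gens {F : IntermediateField ℚ ℂ} (E : IntermediateField ℚ ℂ) {n m : ℕ}
    (p : Fin n → ℂ) (q : Fin m → ℂ) (hqp : ∀ i, q i ∈ Submodule.span E (Set.range p))
    (T : Set ℂ) (hE : E ≤ clo F T) (hq : ∀ i, q i ∈ F) :
    ∃ (D : ℕ) (y : Fin D → ℂ), D + dE E q = dE E p ∧
      ∀ v ∈ Submodule.span E (Set.range p), v ∈ clo F (T ∪ Set.range y) := by
  have h1 := fd_span E p
  have h2 := fd_span E q
  have hle : Submodule.span E (Set.range q) ≤ Submodule.span E (Set.range p) := by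
    rw [Submodule.span_le]
    rintro _ ⟨i, rfl⟩
    exact hqp i
  obtain ⟨Y, hYX, hYA, hYn⟩ := exists_rel_compl hle
  have hYf : FiniteDimensional E Y := Submodule.finiteDimensional_of_le hYX
  let b := finBasis E Y
  have hsup : Y ⊔ Submodule.span E (Set.range q) = Submodule.span E (Set.range p) := by
    apply Submodule.eq_of_le_of_finrank_eq (sup_le hYX hle)
    have h3 := Submodule.finrank_sup_add_finrank_inf_eq Y (Submodule.span E (Set.range q))
    rw [hYA, finrank_bot] at h3
    omega
  have hE' : E ≤ clo F (T ∪ Set.range fun i => (b i : ℂ)) := by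
    intro x hx D hD hS
    exact hE hx D hD (fun s hs => hS s (Or.inl hs))
  refine ⟨finrank E Y, fun i => (b i : ℂ), hYn, fun v hv => ?_⟩
  rw [← hsup] at hv
  obtain ⟨y, hy, z, hz, rfl⟩ := Submodule.mem_sup.1 hv
  refine add_mem ?_ (mem_clo_span hE' (fun i => base_clo (hq i)) hz)
  have h4 := b.sum_repr ⟨y, hy⟩
  have h5 : y = ∑ i, ((b.repr ⟨y, hy⟩ i : E) : ℂ) * (b i : ℂ) := by
    have h6 := congrArg (Submodule.subtype Y) h4
    rw [map_sum] at h6
    exact h6.symm
  rw [h5]
  exact sum_mem (fun i _ => mul_mem (hE' (b.repr ⟨y, hy⟩ i).2)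
    (subset_clo (Or.inr ⟨i, rfl⟩)))

/-- scaling -/
theorem dE_scale (E : IntermediateField ℚ ℂ) (hc : c ≠ 0) (p : Fin n → ℂ) :
    dE E (fun i => c * p i) = dE E p := by
  have h1 : Submodule.span E (Set.range fun i => c * p i) =
      (Submodule.span E (Set.range p)).map (LinearMap.mulLeft E c) := by
    rw [Submodule.map_span, ← Set.range_comp]
    rfl
  unfold dE
  rw [h1]
  exact (Submodule.equivMapOfInjective (LinearMap.mulLeft E c)
    (mul_right_injective₀ hc) _).finrank_eq.symm

/-- elements of an algebraically closed field which are independent over a subfield stay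
independent when a number outside the field is adjoined to the subfield -/
theorem disj (hK : ∀ x, IsAlgebraic K x → x ∈ K) {E E' : IntermediateField ℚ ℂ}
    (hE : ∀ x ∈ E, x ∈ K) {a : ℂ} (ha : a ∉ K)
    (hE' : ∀ x ∈ E', ∃ r s : Polynomial E, x = Polynomial.aeval a r / Polynomial.aeval a s)
    (hle : E ≤ E') (q : Fin n → ℂ) (hq : ∀ i, q i ∈ K) : dE E q ≤ dE E' q := by
  classical
  have h1 := fd_span E q
  have h2 := fd_span E' q
  obtain ⟨m, hm⟩ : ∃ m, m = finrank E (Submodule.span E (Set.range q)) := ⟨_, rfl⟩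
  obtain ⟨b, hb, hbq⟩ : ∃ b : Fin m → ℂ, LinearIndependent E b ∧
      ∀ i, b i ∈ Submodule.span E (Set.range q) := by
    subst hm
    let b := finBasis E (Submodule.span E (Set.range q))
    exact ⟨fun i => (b i : ℂ), b.linearIndependent.map' (Submodule.subtype _)
      (Submodule.ker_subtype _), fun i => (b i).2⟩
  have hbK : ∀ i, b i ∈ K := by
    intro i
    obtain ⟨x, hx⟩ := (Submodule.mem_span_range_iff_exists_fun E).1 (hbq i)
    rw [← hx]
    exact sum_mem (fun j _ => mul_mem (hE _ (x j).2) (hq j))
  have htr : Transcendental K a := fun h => ha (hK a h)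
  have hb' : LinearIndependent E' b := by
    rw [Fintype.linearIndependent_iff]
    intro g hg
    have hg' : ∑ i, (g i : ℂ) * b i = 0 := hg
    choose r s hrs using fun i => hE' (g i) (g i).2
    -- the denominators which vanish can be replaced by one
    obtain ⟨S, R, hS, hR⟩ : ∃ (S : Polynomial E) (R : Fin m → Polynomial E),
        Polynomial.aeval a S ≠ 0 ∧
        ∀ i, (g i : ℂ) * Polynomial.aeval a S = Polynomial.aeval a (R i) := by
      let s' : Fin m → Polynomial E := fun i => if Polynomial.aeval a (s i) = 0 then 1 else s i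
      let r' : Fin m → Polynomial E := fun i => if Polynomial.aeval a (s i) = 0 then 0 else r i
      have hs' : ∀ i, Polynomial.aeval a (s' i) ≠ 0 := by
        intro i
        by_cases h : Polynomial.aeval a (s i) = 0
        · simp only [s', if_pos h, map_one]
          exact one_ne_zero
        · simp only [s', if_neg h]
          exact h
      have hr' : ∀ i, (g i : ℂ) * Polynomial.aeval a (s' i) = Polynomial.aeval a (r' i) := by
        intro i
        by_cases h : Polynomial.aeval a (s i) = 0
        · simp only [s', r', if_pos h, map_one, map_zero, mul_one]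
          rw [hrs i, h, div_zero]
        · simp only [s', r', if_neg h]
          rw [hrs i, div_mul_cancel₀ _ h]
      refine ⟨∏ i, s' i, fun i => r' i * ∏ j ∈ univ.erase i, s' j, ?_, fun i => ?_⟩
      · rw [map_prod]
        exact Finset.prod_ne_zero_iff.2 (fun i _ => hs' i)
      · rw [← Finset.mul_prod_erase univ s' (Finset.mem_univ i), map_mul, map_mul, ← hr' i]
        ring
    have h3 : ∑ i, Polynomial.aeval a (R i) * b i = 0 := by
      have h4 : ∑ i, Polynomial.aeval a (R i) * b i =
          (∑ i, (g i : ℂ) * b i) * Polynomial.aeval a S := by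
        rw [Finset.sum_mul]
        exact Finset.sum_congr rfl (fun i _ => by rw [← hR i]; ring)
      rw [h4, hg', zero_mul]
    -- the polynomial over the field
    let f : E →+* K := ⟨⟨⟨fun x => ⟨x.1, hE _ x.2⟩, rfl⟩, fun _ _ => rfl⟩, rfl, fun _ _ => rfl⟩
    have hf : ∀ P : Polynomial E, Polynomial.aeval a (P.map f) = Polynomial.aeval a P := by
      intro P
      rw [Polynomial.aeval_def, Polynomial.eval₂_map, Polynomial.aeval_def]
      rfl
    have h5 : ∑ i, (R i).map f * Polynomial.C (⟨b i, hbK i⟩ : K) = 0 := by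
      by_contra hne
      apply htr
      refine ⟨_, hne, ?_⟩
      rw [map_sum, ← h3]
      refine Finset.sum_congr rfl (fun i _ => ?_)
      rw [map_mul, hf, Polynomial.aeval_C]
      rfl
    have h6 : ∀ i, R i = 0 := by
      intro i
      ext j
      have h7 := congrArg (fun P => ((Polynomial.coeff P j : K) : ℂ)) h5
      simp only [Polynomial.finsetSum_coeff, Polynomial.coeff_mul_C, Polynomial.coeff_map,
        Polynomial.coeff_zero] at h7
      have h8 : ∑ i, ((R i).coeff j : E) • b i = 0 := by
        have h9 : ((∑ i, f ((R i).coeff j) * (⟨b i, hbK i⟩ : K) : K) : ℂ) =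
            ∑ i, ((R i).coeff j : ℂ) * b i := by
          push_cast
          rfl
        rw [h9] at h7
        exact h7
      have h9 := Fintype.linearIndependent_iff.1 hb (fun i => (R i).coeff j) h8 i
      rw [h9]
      simp
    intro i
    have h7 := hR i
    rw [h6 i, map_zero] at h7
    exact Subtype.ext ((mul_eq_zero.1 h7).resolve_right hS)
  have h3 : finrank E' (Submodule.span E' (Set.range b)) = m := by
    rw [finrank_span_eq_card hb', Fintype.card_fin]
  unfold dE
  rw [← hm, ← h3]
  apply Submodule.finrank_mono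
  rw [Submodule.span_le]
  rintro _ ⟨i, rfl⟩
  obtain ⟨x, hx⟩ := (Submodule.mem_span_range_iff_exists_fun E).1 (hbq i)
  rw [← hx]
  exact sum_mem (fun j _ => Submodule.smul_mem _ (⟨(x j : ℂ), hle (x j).2⟩ : E')
    (Submodule.subset_span ⟨j, rfl⟩))

end Pool.Agent.H39E
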