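import Mathlib
import Pool.Agent.H39E.GP1

/-!
# Generic multipliers: the closed fields and the ranks
-/

set_option autoImplicit false

open Filter Finset Module
open scoped Topology PeriodPair ComplexConjugate

noncomputable section

namespace Pool.Agent.H39E

open H667R3 Pool.Agent.W245.EB Pool.Agent.TH813.Ell Pool.Agent.Y685
open Pool.Agent.TH813.Rel (DF MK subset_cl rk_le_of_subset_cl cl_of_base exists_derF mem_cl
  toENat_trdeg)
open Pool.Agent.Y776 (jf ET ET_finite)

variable {n : ℕ} {L L' : PeriodPair} {c : ℂ} {K : Subfield ℂ}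

/-- the field generated by the multiplications and the elements of a list -/
def KL (L : PeriodPair) (u : List ℂ) : IntermediateField ℚ ℂ :=
  kL L ⊔ IntermediateField.adjoin ℚ {x | x ∈ u}

theorem kL_le_KL (L : PeriodPair) (u : List ℂ) : kL L ≤ KL L u := le_sup_left

theorem KL_le {F : IntermediateField ℚ ℂ} {u : List ℂ} (h1 : kL L ≤ F) (h2 : ∀ x ∈ u, x ∈ F) :
    KL L u ≤ F :=
  sup_le h1 (IntermediateField.adjoin_le_iff.2 h2)

theorem mem_KL {u : List ℂ} {x : ℂ} (hx : x ∈ u) : x ∈ KL L u :=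
  (le_sup_right : IntermediateField.adjoin ℚ {x | x ∈ u} ≤ KL L u)
    (IntermediateField.subset_adjoin ℚ _ hx)

theorem KL_cons_le (a : ℂ) (u : List ℂ) : KL L u ≤ KL L (a :: u) :=
  KL_le (kL_le_KL L _) (fun _ hx => mem_KL (List.mem_cons_of_mem a hx))

theorem KL_frac (a : ℂ) (u : List ℂ) : ∀ x ∈ KL L (a :: u), ∃ r s : Polynomial (KL L u),
    x = Polynomial.aeval a r / Polynomial.aeval a s := by
  intro x hx
  rw [← IntermediateField.mem_adjoin_simple_iff]
  have h1 : KL L (a :: u) ≤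
      (IntermediateField.adjoin (KL L u) ({a} : Set ℂ)).restrictScalars ℚ := by
    refine KL_le (fun y hy => ?_) (fun y hy => ?_)
    · exact (IntermediateField.adjoin (KL L u) ({a} : Set ℂ)).algebraMap_mem
        ⟨y, kL_le_KL L u hy⟩
    · rcases List.mem_cons.1 hy with rfl | hy
      · exact IntermediateField.subset_adjoin (KL L u) _ rfl
      · exact (IntermediateField.adjoin (KL L u) ({a} : Set ℂ)).algebraMap_mem ⟨y, mem_KL hy⟩
  exact h1 hx

theorem Hm.KL (h : Hm L L' c) (u : List ℂ) : KL L' u = KL L u := by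
  have h1 : kL L' = kL L := by
    ext x
    exact h.kL
  unfold H39E.KL
  rw [h1]

/-- the closed fields attached to lists, over a countable set -/
def CG {S : Set ℂ} (hS : S.Countable) : List ℂ → {K : Subfield ℂ // Fld K}
  | [] => ⟨(exists_Fld hS).choose, (exists_Fld hS).choose_spec.1⟩
  | a :: l => ⟨(exists_Fld (((CG hS l).2.cnt).insert a)).choose,
      (exists_Fld (((CG hS l).2.cnt).insert a)).choose_spec.1⟩

variable {S : Set ℂ} (hS : S.Countable)

theorem CG_base : S ⊆ (CG hS []).1 := (exists_Fld hS).choose_spec.2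

theorem CG_cons (a : ℂ) (l : List ℂ) : insert a ((CG hS l).1 : Set ℂ) ⊆ (CG hS (a :: l)).1 :=
  (exists_Fld (((CG hS l).2.cnt).insert a)).choose_spec.2

theorem CG_mem (a : ℂ) (l : List ℂ) : a ∈ (CG hS (a :: l)).1 :=
  CG_cons hS a l (Set.mem_insert _ _)

theorem CG_le (a : ℂ) (l : List ℂ) : (CG hS l).1 ≤ (CG hS (a :: l)).1 :=
  fun _ hx => CG_cons hS a l (Set.mem_insert_of_mem _ hx)

theorem CG_nil_le (l : List ℂ) : (CG hS []).1 ≤ (CG hS l).1 := by
  induction l with
  | nil => exact le_rfl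
  | cons a l ih => exact ih.trans (CG_le hS a l)

theorem CG_list (l : List ℂ) : ∀ x ∈ l, x ∈ (CG hS l).1 := by
  induction l with
  | nil => intro x hx; exact absurd hx (List.not_mem_nil)
  | cons a l ih =>
    intro x hx
    rcases List.mem_cons.1 hx with rfl | hx
    · exact CG_mem hS _ l
    · exact CG_le hS a l (ih x hx)

/-- generic lists -/
def Gen (C : List ℂ → Subfield ℂ) : List ℂ → Prop
  | [] => True
  | a :: l => a ∉ C l ∧ Gen C l

/-- the values at the points -/
def PZ (L : PeriodPair) {n : ℕ} (p : Fin n → ℂ) : Set ℂ :=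
  Set.range (fun i => zt L (p i)) ∪ Set.range (fun i => ℘[L] (p i))

theorem PZ_finite (p : Fin n → ℂ) : (PZ L p).Finite :=
  (Set.finite_range _).union (Set.finite_range _)

theorem EP_eq (p : Fin n → ℂ) : EP L p = Set.range p ∪ PZ L p := rfl

theorem sub_clPZ {C : IntermediateField ℚ ℂ} (h : Hm L L' c)
    (hcδ : ∀ δ : Derivation ℚ ℂ ℂ, δ L.g₂ = 0 → δ L.g₃ = 0 → δ c = 0) {T : Set ℂ}
    (v : Fin n → ℂ) (h2 : L.g₂ ∈ T) (h3 : L.g₃ ∈ T) (hv : PZ L v ⊆ T) :
    {L'.g₂, L'.g₃} ∪ PZ L' (fun i => c * v i) ⊆ (MK C).closure T := by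
  intro x hx
  rw [mem_cl_iff]
  intro δ _ hS
  have e2 : δ L.g₂ = 0 := hS _ h2
  have e3 : δ L.g₃ = 0 := hS _ h3
  have hc := hcδ δ e2 e3
  have hd : ∀ (m : ℕ) (y : ℂ), δ y = 0 → δ (y / c ^ m) = 0 := by
    intro m y hy
    rw [Derivation.leibniz_div, hy, Derivation.leibniz_pow, hc]
    simp
  rcases hx with (rfl | rfl) | ⟨i, rfl⟩ | ⟨i, rfl⟩
  · rw [h.g₂]; exact hd 4 _ e2
  · rw [h.g₃]; exact hd 6 _ e3
  · change δ (zt L' (c * v i)) = 0
    rw [h.zt]
    have := hd 1 _ (hS _ (hv (Or.inl ⟨i, rfl⟩)))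
    rwa [pow_one] at this
  · change δ (℘[L'] (c * v i)) = 0
    rw [h.wp]
    exact hd 2 _ (hS _ (hv (Or.inr ⟨i, rfl⟩)))

/-- the cost of the generators -/
theorem cost {F : IntermediateField ℚ ℂ} {A T B : Set ℂ} {D : ℕ} (y : Fin D → ℂ)
    (hTB : T ⊆ B) (hA : ∀ v ∈ A, v ∈ B ∨ v ∈ clo F (T ∪ Set.range y)) :
    (MK F).eRk A ≤ (MK F).eRk B + (D : ℕ∞) := by
  have h1 : (MK F).eRk A ≤ (MK F).eRk (B ∪ Set.range y) := by
    apply rk_le_of_subset_cl
    intro v hv
    rw [← mem_clo_iff]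
    rcases hA v hv with h | h
    · exact subset_clo (Or.inl h)
    · exact clo_le (fun s hs => by
        rcases hs with hs | hs
        · exact subset_clo (Or.inl (hTB hs))
        · exact subset_clo (Or.inr hs)) h
  refine h1.trans (((MK F).eRk_union_le_eRk_add_eRk _ _).trans ?_)
  refine add_le_add le_rfl (((MK F).eRk_le_encard _).trans ?_)
  have h2 : (Set.range y).encard ≤ (Set.univ : Set (Fin D)).encard := by
    rw [← Set.image_univ]
    exact Set.encard_image_le _ _
  refine h2.trans ?_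
  rw [Set.encard_univ, ENat.card_eq_coe_fintype_card, Fintype.card_fin]

/-- the elements of a generic list are independent -/
theorem rank_point (hK : Fld K) {a : ℂ} (ha : a ∉ K) : ((1 : ℕ) : ℕ∞) ≤ (MK (IFd K)).eRk {a} := by
  obtain ⟨r, hr, hr'⟩ := trd_eq (IFd K) (Set.finite_singleton a)
  rw [hr]
  rcases Nat.eq_zero_or_pos r with rfl | h0
  · exfalso
    rw [Nat.cast_zero] at hr'
    have h1 : Algebra.IsAlgebraic (IFd K) (IntermediateField.adjoin (IFd K) {a}) :=
      trdeg_eq_zero_iff.1 hr'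
    have h5 := h1.isAlgebraic (⟨a, IntermediateField.subset_adjoin (IFd K) _ rfl⟩ :
        IntermediateField.adjoin (IFd K) {a})
    exact ha (hK.alg a (h5.algebraMap (A := ℂ)))
  · exact_mod_cast h0

end Pool.Agent.H39E
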