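import Mathlib
import Pool.Agent.H39E.GP2

/-!
# Generic multipliers: the main inequality
-/

set_option autoImplicit false

open Filter Finset Module
open scoped Topology PeriodPair ComplexConjugate

noncomputable section

namespace Pool.Agent.H39E

open H667R3 Pool.Agent.W245.EB Pool.Agent.TH813.Ell Pool.Agent.Y685
open Pool.Agent.TH813.Rel (DF MK subset_cl rk_le_of_subset_cl cl_of_base exists_derF mem_cl
  toENat_trdeg)
open Pool.Agent.Y776 (jf ET ET_finite)

variable {n : ℕ} {L L' : PeriodPair} {c : ℂ} {K : Subfield ℂ}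

/-- the special dimension is at most `m` -/
def Sp (C : Subfield ℂ) (L : PeriodPair) {n : ℕ} (p : Fin n → ℂ) (m : ℕ) : Prop :=
  ∀ c : ℂ, c ≠ 0 → ∀ (r : ℕ) (q : Fin r → ℂ), LinearIndependent (kL L) q →
    (∀ i, q i ∈ Submodule.span (kL L) (Set.range p)) → (∀ i, c * q i ∈ C) → r ≤ m

theorem Sp.scale {C : Subfield ℂ} (h : Hm L L' c) {p : Fin n → ℂ} {m s : ℕ} (hp : Sp C L p m)
    {q : Fin s → ℂ} (hq : ∀ i, q i ∈ Submodule.span (kL L) (Set.range p)) :
    Sp C L' (fun i => c * q i) m := by
  intro c' hc' r z hz hzq hzC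
  have h1 := li_scale h.symm hz
  refine hp (c' * c) (mul_ne_zero hc' h.c0) r _ h1 (fun i => ?_) (fun i => ?_)
  · have h2 := span_scale h.symm (hzq i)
    have h3 : (fun i => c⁻¹ * (c * q i)) = q := by
      funext i
      rw [inv_mul_cancel_left₀ h.c0]
    rw [h3] at h2
    have h4 : Submodule.span (kL L) (Set.range q) ≤ Submodule.span (kL L) (Set.range p) := by
      rw [Submodule.span_le]
      rintro _ ⟨i, rfl⟩
      exact hq i
    exact h4 h2
  · have h2 : c' * c * (c⁻¹ * z i) = c' * z i := by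
      rw [mul_assoc, mul_inv_cancel_left₀ h.c0]
    rw [h2]
    exact hzC i

theorem kL_clo (F : IntermediateField ℚ ℂ) (T : Set ℂ) : kL L ≤ clo F T :=
  fun _ hx D _ _ => der_kL D hx

theorem span_kL_le (u : List ℂ) {p : Fin n → ℂ} {v : ℂ}
    (hv : v ∈ Submodule.span (kL L) (Set.range p)) :
    v ∈ Submodule.span (KL L u) (Set.range p) := by
  obtain ⟨x, rfl⟩ := (Submodule.mem_span_range_iff_exists_fun (kL L)).1 hv
  exact sum_mem (fun j _ => Submodule.smul_mem _ (⟨(x j : ℂ), kL_le_KL L u (x j).2⟩ : KL L u)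
    (Submodule.subset_span ⟨j, rfl⟩))

theorem exists_gens0 {F : IntermediateField ℚ ℂ} (E : IntermediateField ℚ ℂ) {n : ℕ}
    (p : Fin n → ℂ) (T : Set ℂ) (hE : E ≤ clo F T) :
    ∃ y : Fin (dE E p) → ℂ,
      ∀ v ∈ Submodule.span E (Set.range p), v ∈ clo F (T ∪ Set.range y) := by
  obtain ⟨D, y, hD, hy⟩ := exists_gens E p (Fin.elim0 : Fin 0 → ℂ) (fun i => i.elim0) T hE
    (fun i => i.elim0)
  have h0 : dE E (Fin.elim0 : Fin 0 → ℂ) = 0 := by
    unfold dE
    have : Set.range (Fin.elim0 : Fin 0 → ℂ) = ∅ := Set.range_eq_empty _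
    rw [this, Submodule.span_empty, finrank_bot]
  rw [h0, add_zero] at hD
  subst hD
  exact ⟨y, hy⟩

/-- the decomposition of the points with respect to a closed field -/
theorem decomp (hK : Fld K) (hj : jv L ∈ K) {p : Fin n → ℂ}
    (hp : LinearIndependent (kL L) p) :
    ∃ (L' : PeriodPair) (c : ℂ), Hm L L' c ∧ L' ∈ LK K ∧
      (∀ δ : Derivation ℚ ℂ ℂ, δ L.g₂ = 0 → δ L.g₃ = 0 → δ c = 0) ∧
      ∃ (n₁ n₂ : ℕ) (q : Fin n₁ → ℂ) (r : Fin n₂ → ℂ), n₁ + n₂ = n ∧
        LinearIndependent (kL L) q ∧ (∀ i, q i ∈ Submodule.span (kL L) (Set.range p)) ∧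
        (∀ i, q i ∉ L.lattice) ∧ (∀ i, c * q i ∈ K) ∧
        (∀ i, r i ∈ Submodule.span (kL L) (Set.range p)) ∧ (∀ i, r i ∉ L.lattice) ∧
        (0 < n₂ → ((2 * n₂ + 1 : ℕ) : ℕ∞) ≤ (MK (IFd K)).eRk (EP L' (fun i => c * r i))) := by
  obtain ⟨L', c, h, hL', hcδ⟩ := exists_norm hK hj
  have hkK : ∀ a ∈ kL L, a ∈ K := fun a ha => kL_mem hL' (h.kL.2 ha)
  obtain ⟨X, hX⟩ : ∃ X, X = Submodule.span (kL L) (Set.range p) := ⟨_, rfl⟩
  have hXf : FiniteDimensional (kL L) X := by
    rw [hX]
    exact FiniteDimensional.span_of_finite (kL L) (Set.finite_range p)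
  have hXn : finrank (kL L) X = n := by
    rw [hX, finrank_span_eq_card hp, Fintype.card_fin]
  let cK : Submodule (kL L) ℂ :=
    { carrier := {x | c * x ∈ K}
      add_mem' := fun {a b} ha hb => by
        rw [Set.mem_ofPred_eq] at ha hb ⊢
        rw [mul_add]; exact add_mem ha hb
      zero_mem' := by
        rw [Set.mem_ofPred_eq, mul_zero]; exact zero_mem K
      smul_mem' := fun a x hx => by
        rw [Set.mem_ofPred_eq] at hx ⊢
        have e : c * (a • x) = (a : ℂ) * (c * x) := by
          change c * ((a : ℂ) * x) = _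
          ring
        rw [e]
        exact mul_mem (hkK _ a.2) hx }
  have hAX : X ⊓ cK ≤ X := inf_le_left
  obtain ⟨Y, hYX, hYA, hYn⟩ := exists_rel_compl hAX
  have hAf : FiniteDimensional (kL L) (X ⊓ cK : Submodule (kL L) ℂ) :=
    Submodule.finiteDimensional_of_le hAX
  have hYf : FiniteDimensional (kL L) Y := Submodule.finiteDimensional_of_le hYX
  obtain ⟨q, hq, hqA, hqL⟩ := exists_basis_off (X ⊓ cK)
  obtain ⟨r, hr, hrY, hrL⟩ := exists_basis_off Y
  refine ⟨L', c, h, hL', hcδ, _, _, q, r, by omega, hq, fun i => hX ▸ (hqA i).1, hqL,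
    fun i => (hqA i).2, fun i => hX ▸ hYX (hrY i), hrL, fun hy0 => ?_⟩
  have hrind : ∀ a : Fin (finrank (kL L) Y) → ℂ, (∀ i, a i ∈ kL L') →
      ∑ i, a i * (c * r i) ∈ K → a = 0 := by
    intro a ha hs
    refine li_iff.1 hr a (fun i => h.kL.1 (ha i)) ?_
    have h1 : ∑ i, a i * r i ∈ Y := by
      have : ∑ i, a i * r i = ∑ i, (⟨a i, h.kL.1 (ha i)⟩ : kL L) • r i := rfl
      rw [this]
      exact sum_mem (fun i _ => Submodule.smul_mem _ _ (hrY i))
    have h2 : ∑ i, a i * r i ∈ cK := by
      change c * ∑ i, a i * r i ∈ K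
      rw [mul_sum]
      have : ∑ i, c * (a i * r i) = ∑ i, a i * (c * r i) := sum_congr rfl (fun i _ => by ring)
      rw [this]
      exact hs
    have h3 : ∑ i, a i * r i ∈ Y ⊓ (X ⊓ cK) := ⟨h1, hYX h1, h2⟩
    rw [hYA] at h3
    exact (Submodule.mem_bot _).1 h3
  have h1 := hK.fix (s := 0) hL' (z := fun i => c * r i) (t := ![]) hrind
    (fun _ _ => Subsingleton.elim _ _) (by omega)
  have h2 : (ET (![] : Fin 0 → ℂ) ∪ EP L' (fun i => c * r i)) = EP L' (fun i => c * r i) := by
    apply Set.union_eq_self_of_subset_left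
    rintro x (⟨i, -⟩ | ⟨i, -⟩) <;> exact i.elim0
  rw [h2, zero_add] at h1
  exact h1

section

variable {k : Type} [Field k] [Algebra k ℂ] {S : Set ℂ} (hS : S.Countable)

theorem list_finite (l : List ℂ) : {x | x ∈ l}.Finite := List.finite_toSet l

theorem base_all (hk : ∀ x : k, algebraMap k ℂ x ∈ (CG hS []).1) (l : List ℂ) :
    ∀ x : k, algebraMap k ℂ x ∈ (CG hS l).1 := fun x => CG_nil_le hS l (hk x)

theorem list_rank (hk : ∀ x : k, algebraMap k ℂ x ∈ (CG hS []).1) (l : List ℂ)
    (hl : Gen (fun a => (CG hS a).1) l) : (l.length : ℕ∞) ≤ (MK k).eRk {x | x ∈ l} := by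
  induction l with
  | nil => exact bot_le
  | cons a l ih =>
    have h1 := ih hl.2
    have h2 := union_ge (k := k) (CG hS l).2 (base_all hS hk l) (list_finite l)
      (Set.finite_singleton a) (fun x hx => CG_list hS l x hx)
    have h3 := rank_point (CG hS l).2 hl.1
    have h4 : {x | x ∈ l} ∪ {a} = {x | x ∈ a :: l} := by
      ext x
      simp only [Set.mem_union, Set.mem_ofPred_eq, Set.mem_singleton_iff, List.mem_cons]
      tauto
    rw [h4] at h2
    refine le_trans ?_ h2
    rw [List.length_cons, Nat.cast_add]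
    exact add_le_add h1 h3

theorem finite_nat {A : Set ℂ} (hA : A.Finite) : ∃ r : ℕ, (MK k).eRk A = (r : ℕ∞) := by
  obtain ⟨r, hr, -⟩ := trd_eq k hA
  exact ⟨r, hr⟩

theorem ratli {p : Fin n → ℂ} (hp : LinearIndependent (kL L) p) : LinearIndependent ℚ p :=
  hp.restrict_scalars (fun a b hab => by
    have h1 : ((algebraMap ℚ (kL L) a : kL L) : ℂ) = ((algebraMap ℚ (kL L) b : kL L) : ℂ) := by
      have h2 : algebraMap ℚ (kL L) a = algebraMap ℚ (kL L) b := by
        simpa [Algebra.smul_def] using hab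
      rw [h2]
    simpa using h1)

/-- a basis of the span outside the lattice -/
theorem basis_off {p : Fin n → ℂ} (hp : LinearIndependent (kL L) p) :
    ∃ q : Fin n → ℂ, LinearIndependent (kL L) q ∧
      (∀ i, q i ∈ Submodule.span (kL L) (Set.range p)) ∧ ∀ i, q i ∉ L.lattice := by
  have : FiniteDimensional (kL L) (Submodule.span (kL L) (Set.range p)) :=
    FiniteDimensional.span_of_finite (kL L) (Set.finite_range p)
  have hn : finrank (kL L) (Submodule.span (kL L) (Set.range p)) = n := by
    rw [finrank_span_eq_card hp, Fintype.card_fin]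
  have h := exists_basis_off (Submodule.span (kL L) (Set.range p))
  rw [hn] at h
  exact h

theorem main2 (hk : ∀ x : k, algebraMap k ℂ x ∈ (CG hS []).1) (l : List ℂ)
    (hl : Gen (fun a => (CG hS a).1) l) : ∀ (L : PeriodPair) (n : ℕ) (p : Fin n → ℂ) (m : ℕ),
    1 ≤ m → LinearIndependent (kL L) p → Sp (CG hS []).1 L p m →
    ∃ (N : ℕ) (q : Fin N → ℂ), (∀ i, q i ∈ Submodule.span (kL L) (Set.range p)) ∧
      (∀ i, q i ∉ L.lattice) ∧ ((2 * n + l.length : ℕ) : ℕ∞) ≤
        (MK k).eRk (({L.g₂, L.g₃} ∪ PZ L q) ∪ {x | x ∈ l}) + ((m + dE (KL L l) p : ℕ) : ℕ∞) := by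
  induction l with
  | nil =>
    intro L n p m hm hp hsp
    have hK := (CG hS []).2
    have hKL : KL L [] ≤ clo (IFd (CG hS []).1) ∅ :=
      KL_le (kL_clo _ _) (fun x hx => absurd hx List.not_mem_nil)
    by_cases hj : jv L ∈ (CG hS []).1
    · obtain ⟨L', c, h, hL', hcδ, n₁, n₂, q, r, hn, hq, hqp, hqL, hqK, hrp, hrL, hr⟩ :=
        decomp hK hj hp
      refine ⟨n₂, r, hrp, hrL, ?_⟩
      have h1 : n₁ ≤ m := hsp c h.c0 n₁ q hq hqp hqK
      have h2 : ((n₂ : ℕ) : ℕ∞) ≤ (MK (IFd (CG hS []).1)).eRk (PZ L' (fun i => c * r i)) := by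
        rcases Nat.eq_zero_or_pos n₂ with h0 | h0
        · have e : ((n₂ : ℕ) : ℕ∞) = 0 := by
            rw [h0]
            rfl
          rw [e]
          exact bot_le
        have h3 := (hr h0).trans (cost (T := ∅) (B := PZ L' (fun i => c * r i))
          (fun i => c * r i) (Set.empty_subset _) (by
            intro v hv
            rcases hv with hv | hv
            · exact Or.inr (subset_clo (Or.inr hv))
            · exact Or.inl hv))
        obtain ⟨R, hR⟩ := finite_nat (k := IFd (CG hS []).1) (PZ_finite (L := L')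
          (fun i => c * r i))
        rw [hR] at h3 ⊢
        have h4 : 2 * n₂ + 1 ≤ R + n₂ := by exact_mod_cast h3
        have h5 : n₂ ≤ R := by omega
        exact_mod_cast h5
      have h3 := h2.trans (base_le hk (PZ_finite _))
      have h4 : (MK k).eRk (PZ L' (fun i => c * r i)) ≤
          (MK k).eRk (({L.g₂, L.g₃} ∪ PZ L r) ∪ {x | x ∈ ([] : List ℂ)}) := by
        rw [← MK_FR k]
        apply rk_le_of_subset_cl
        intro x hx
        exact sub_clPZ h hcδ r (Or.inl (Or.inl (Or.inl rfl))) (Or.inl (Or.inl (Or.inr rfl)))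
          (fun y hy => Or.inl (Or.inr hy)) (Or.inr hx)
      have h5 : n ≤ dE (KL L []) p := by
        have h6 : dE (kL L) p ≤ dE (KL L []) p := by
          have h7 : KL L [] = kL L := le_antisymm
            (KL_le le_rfl (fun x hx => absurd hx List.not_mem_nil)) (kL_le_KL L [])
          rw [h7]
        rwa [dE_li hp] at h6
      have h6 := h3.trans h4
      obtain ⟨R, hR⟩ := finite_nat (k := k) (((Set.toFinite {L.g₂, L.g₃}).union
        (PZ_finite (L := L) r)).union (list_finite []))
      rw [hR] at h6 ⊢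
      have h7 : n₂ ≤ R := by exact_mod_cast h6
      have h8 : 2 * n + 0 ≤ R + (m + dE (KL L []) p) := by omega
      exact_mod_cast h8
    · obtain ⟨q, hq, hqp, hqL⟩ := basis_off hp
      refine ⟨n, q, hqp, hqL, ?_⟩
      obtain ⟨y, hy⟩ := exists_gens0 (F := IFd (CG hS []).1) (KL L []) p ∅ hKL
      have h1 := (hK.gen' L hj (ratli hq)).trans (cost (T := ∅)
        (B := ({L.g₂, L.g₃} ∪ PZ L q) ∪ {x | x ∈ ([] : List ℂ)}) y (Set.empty_subset _) (by
          rintro v (hv | ⟨i, rfl⟩ | hv)
          · exact Or.inl (Or.inl (Or.inl hv))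
          · exact Or.inr (hy _ (span_kL_le [] (hqp i)))
          · exact Or.inl (Or.inl (Or.inr hv))))
      have hfin := (((Set.toFinite {L.g₂, L.g₃}).union
        (PZ_finite (L := L) q)).union (list_finite []))
      have h2 := h1.trans (add_le_add (base_le hk hfin) le_rfl)
      obtain ⟨R, hR⟩ := finite_nat (k := k) hfin
      rw [hR] at h2 ⊢
      have h7 : 2 * n ≤ R + dE (KL L []) p := by exact_mod_cast h2
      have h8 : 2 * n + 0 ≤ R + (m + dE (KL L []) p) := by omega
      exact_mod_cast h8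
  | cons a l ih =>
    intro L n p m hm hp hsp
    obtain ⟨ha, hl'⟩ := hl
    have hK := (CG hS l).2
    have hkl := base_all hS hk l
    have hlr := list_rank hS hk l hl'
    have hset : {x | x ∈ a :: l} = {x | x ∈ l} ∪ {a} := by
      ext x
      simp only [Set.mem_union, Set.mem_ofPred_eq, Set.mem_singleton_iff, List.mem_cons]
      tauto
    have hKL : KL L (a :: l) ≤ clo (IFd (CG hS l).1) {a} := by
      refine KL_le (kL_clo _ _) (fun x hx => ?_)
      rcases List.mem_cons.1 hx with rfl | hx
      · exact subset_clo rfl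
      · exact base_clo (CG_list hS l x hx)
    by_cases hj : jv L ∈ (CG hS l).1
    · obtain ⟨L', c, h, hL', hcδ, n₁, n₂, q, r, hn, hq, hqp, hqL, hqK, hrp, hrL, hr⟩ :=
        decomp hK hj hp
      have hsp' : Sp (CG hS []).1 L' (fun i => c * q i) m := hsp.scale h hqp
      obtain ⟨N, z, hzq, hzL, hz⟩ := ih hl' L' n₁ (fun i => c * q i) m hm (li_scale h hq) hsp'
      have hkK : kL L' ≤ IFd (CG hS l).1 := fun x hx => kL_mem hL' hx
      have hzK : ∀ i, z i ∈ (CG hS l).1 := fun i =>
        mem_clo_span (F := IFd (CG hS l).1) hkK (fun j => hqK j) (hzq i)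
      -- the dimensions
      have hKL' : KL L' l = KL L l := Hm.KL h l
      have hd1 : dE (KL L' l) (fun i => c * q i) ≤ dE (KL L (a :: l)) (fun i => c * q i) := by
        rw [hKL']
        refine disj hK.alg (E' := KL L (a :: l)) (fun x hx => ?_) ha (KL_frac a l)
          (KL_cons_le a l) _ hqK
        have h1 : KL L l ≤ IFd (CG hS l).1 :=
          KL_le (fun y hy => kL_mem hL' (h.kL.2 hy)) (fun y hy => CG_list hS l y hy)
        exact h1 hx
      have hspan : ∀ {s : ℕ} {w : Fin s → ℂ},
          (∀ i, w i ∈ Submodule.span (kL L) (Set.range p)) → ∀ i, c * w i ∈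
            Submodule.span (KL L (a :: l)) (Set.range fun i => c * p i) := by
        intro s w hw i
        obtain ⟨x, hx⟩ := (Submodule.mem_span_range_iff_exists_fun (kL L)).1 (hw i)
        rw [← hx, mul_sum]
        refine sum_mem (fun j _ => ?_)
        have e1 : c * (x j • p j) =
            (⟨(x j : ℂ), kL_le_KL L (a :: l) (x j).2⟩ : KL L (a :: l)) • (c * p j) := by
          change c * ((x j : ℂ) * p j) = (x j : ℂ) * (c * p j)
          ring
        rw [e1]
        exact Submodule.smul_mem _ _ (Submodule.subset_span ⟨j, rfl⟩)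
      obtain ⟨D, y, hD, hy⟩ := exists_gens (F := IFd (CG hS l).1) (KL L (a :: l))
        (fun i => c * p i) (fun i => c * q i) (hspan hqp) {a} hKL (fun i => hqK i)
      have hDp := dE_scale (KL L (a :: l)) h.c0 p
      -- the outer part
      have hfo : (PZ L' (fun i => c * r i) ∪ {a}).Finite :=
        (PZ_finite _).union (Set.finite_singleton a)
      have h2 : ((2 * n₂ + 1 : ℕ) : ℕ∞) ≤
          (MK (IFd (CG hS l).1)).eRk (PZ L' (fun i => c * r i) ∪ {a}) + (D : ℕ∞) := by
        rcases Nat.eq_zero_or_pos n₂ with h0 | h0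
        · have h3 := rank_point hK ha
          have h4 : (MK (IFd (CG hS l).1)).eRk {a} ≤
              (MK (IFd (CG hS l).1)).eRk (PZ L' (fun i => c * r i) ∪ {a}) :=
            (MK (IFd (CG hS l).1)).eRk_mono Set.subset_union_right
          have e : ((2 * n₂ + 1 : ℕ) : ℕ∞) = ((1 : ℕ) : ℕ∞) := by rw [h0]
          rw [e]
          exact (h3.trans h4).trans le_self_add
        · refine (hr h0).trans (cost (T := {a}) y Set.subset_union_right ?_)
          rintro v (⟨i, rfl⟩ | hv)
          · exact Or.inr (hy _ (hspan hrp i))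
          · exact Or.inl (Or.inl hv)
      -- the numbers in the field
      obtain ⟨A, hA⟩ : ∃ A : Set ℂ, A = ({L'.g₂, L'.g₃} ∪ PZ L' z) ∪ {x | x ∈ l} := ⟨_, rfl⟩
      have hAf : A.Finite := by
        rw [hA]
        exact ((Set.toFinite _).union (PZ_finite _)).union (list_finite l)
      have hAK : A ⊆ (CG hS l).1 := by
        rw [hA]
        rintro x (((rfl | rfl) | ⟨i, rfl⟩ | ⟨i, rfl⟩) | hx)
        · exact hK.g₂ _ hL'
        · exact hK.g₃ _ hL'
        · exact hK.zt _ hL' _ (hzK i)
        · exact hK.wp _ hL' _ (hzK i)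
        · exact CG_list hS l x hx
      have h3 := union_ge (k := k) hK hkl hAf hfo hAK
      refine ⟨N + n₂, Fin.append (fun i => c⁻¹ * z i) r, fun i => ?_, fun i => ?_, ?_⟩
      · induction i using Fin.addCases with
        | left i =>
          rw [Fin.append_left]
          have h4 := span_scale h.symm (hzq i)
          have h5 : (fun i => c⁻¹ * (c * q i)) = q := by
            funext i
            rw [inv_mul_cancel_left₀ h.c0]
          rw [h5] at h4
          have h6 : Submodule.span (kL L) (Set.range q) ≤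
              Submodule.span (kL L) (Set.range p) := by
            rw [Submodule.span_le]
            rintro _ ⟨i, rfl⟩
            exact hqp i
          exact h6 h4
        | right i =>
          rw [Fin.append_right]
          exact hrp i
      · induction i using Fin.addCases with
        | left i =>
          rw [Fin.append_left]
          exact h.symm.notMem.2 (hzL i)
        | right i =>
          rw [Fin.append_right]
          exact hrL i
      · obtain ⟨B, hB⟩ : ∃ B : Set ℂ, B = ({L.g₂, L.g₃} ∪ PZ L (Fin.append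
          (fun i => c⁻¹ * z i) r)) ∪ {x | x ∈ a :: l} := ⟨_, rfl⟩
        rw [← hB]
        have hBf : B.Finite := by
          rw [hB]
          exact ((Set.toFinite _).union (PZ_finite _)).union (list_finite _)
        have hg2 : L.g₂ ∈ B := by rw [hB]; exact Or.inl (Or.inl (Or.inl rfl))
        have hg3 : L.g₃ ∈ B := by rw [hB]; exact Or.inl (Or.inl (Or.inr rfl))
        have hPl : PZ L (fun i => c⁻¹ * z i) ⊆ B := by
          rw [hB]
          rintro x (⟨i, rfl⟩ | ⟨i, rfl⟩)
          · refine Or.inl (Or.inr (Or.inl ⟨Fin.castAdd n₂ i, ?_⟩))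
            simp only [Fin.append_left]
          · refine Or.inl (Or.inr (Or.inr ⟨Fin.castAdd n₂ i, ?_⟩))
            simp only [Fin.append_left]
        have hPr : PZ L r ⊆ B := by
          rw [hB]
          rintro x (⟨i, rfl⟩ | ⟨i, rfl⟩)
          · refine Or.inl (Or.inr (Or.inl ⟨Fin.natAdd N i, ?_⟩))
            simp only [Fin.append_right]
          · refine Or.inl (Or.inr (Or.inr ⟨Fin.natAdd N i, ?_⟩))
            simp only [Fin.append_right]
        have hll : {x | x ∈ a :: l} ⊆ B := by
          rw [hB]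
          exact Set.subset_union_right
        have h4 : (MK k).eRk (A ∪ (PZ L' (fun i => c * r i) ∪ {a})) ≤ (MK k).eRk B := by
          rw [← MK_FR k]
          apply rk_le_of_subset_cl
          have hz2 : (fun i => c * (c⁻¹ * z i)) = z := by
            funext i
            rw [mul_inv_cancel_left₀ h.c0]
          have h5 := sub_clPZ (C := FR k) h hcδ (T := B) (fun i => c⁻¹ * z i) hg2 hg3 hPl
          rw [hz2] at h5
          rw [hA]
          rintro x ((hx | hx) | hx | hx)
          · exact h5 hx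
          · exact subset_cl _ (hll (List.mem_cons_of_mem a hx))
          · exact sub_clPZ h hcδ r hg2 hg3 hPr (Or.inr hx)
          · refine subset_cl _ (hll ?_)
            rw [Set.mem_singleton_iff.1 hx]
            exact List.mem_cons_self
        have h5 := h3.trans h4
        rw [← hA] at hz
        obtain ⟨RA, hRA⟩ := finite_nat (k := k) hAf
        obtain ⟨RO, hRO⟩ := finite_nat (k := IFd (CG hS l).1) hfo
        obtain ⟨RB, hRB⟩ := finite_nat (k := k) hBf
        rw [hRA] at hz h5
        rw [hRO] at h2 h5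
        rw [hRB] at h5 ⊢
        have i1 : 2 * n₁ + l.length ≤ RA + (m + dE (KL L' l) (fun i => c * q i)) := by
          exact_mod_cast hz
        have i2 : 2 * n₂ + 1 ≤ RO + D := by exact_mod_cast h2
        have i3 : RA + RO ≤ RB := by exact_mod_cast h5
        have i4 : 2 * n + (a :: l).length ≤ RB + (m + dE (KL L (a :: l)) p) := by
          rw [List.length_cons]
          omega
        exact_mod_cast i4
    · obtain ⟨q, hq, hqp, hqL⟩ := basis_off hp
      refine ⟨n, q, hqp, hqL, ?_⟩
      obtain ⟨y, hy⟩ := exists_gens0 (F := IFd (CG hS l).1) (KL L (a :: l)) p {a} hKL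
      have h1 := (hK.gen' L hj (ratli hq)).trans (cost (T := {a})
        (B := ({L.g₂, L.g₃} ∪ PZ L q) ∪ {a}) y Set.subset_union_right (by
          rintro v (hv | ⟨i, rfl⟩ | hv)
          · exact Or.inl (Or.inl (Or.inl hv))
          · exact Or.inr (hy _ (span_kL_le (a :: l) (hqp i)))
          · exact Or.inl (Or.inl (Or.inr hv))))
      have hfo : (({L.g₂, L.g₃} ∪ PZ L q) ∪ {a}).Finite :=
        (((Set.toFinite {L.g₂, L.g₃}).union (PZ_finite (L := L) q)).union
          (Set.finite_singleton a))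
      have h2 := union_ge (k := k) hK hkl (list_finite l) hfo
        (fun x hx => CG_list hS l x hx)
      have h3 : {x | x ∈ l} ∪ (({L.g₂, L.g₃} ∪ PZ L q) ∪ {a}) =
          ({L.g₂, L.g₃} ∪ PZ L q) ∪ {x | x ∈ a :: l} := by
        rw [hset]
        ext x
        simp only [Set.mem_union]
        tauto
      rw [h3] at h2
      obtain ⟨R, hR⟩ := finite_nat (k := k) (((Set.toFinite {L.g₂, L.g₃}).union
        (PZ_finite (L := L) q)).union (list_finite (a :: l)))
      obtain ⟨RO, hRO⟩ := finite_nat (k := IFd (CG hS l).1) hfo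
      obtain ⟨RL, hRL⟩ := finite_nat (k := k) (list_finite l)
      rw [hRL] at h2 hlr
      rw [hRO] at h1 h2
      rw [hR] at h2 ⊢
      have i1 : l.length ≤ RL := by exact_mod_cast hlr
      have i2 : 2 * n ≤ RO + dE (KL L (a :: l)) p := by exact_mod_cast h1
      have i3 : RL + RO ≤ R := by exact_mod_cast h2
      have i4 : 2 * n + (a :: l).length ≤ R + (m + dE (KL L (a :: l)) p) := by
        rw [List.length_cons]
        omega
      exact_mod_cast i4

end

end Pool.Agent.H39E
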