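import Mathlib
import Pool.Agent.H39E.GP3

/-!
# Generic multipliers: dimensions
-/

set_option autoImplicit false

open Filter Finset Module
open scoped Topology PeriodPair ComplexConjugate

noncomputable section

namespace Pool.Agent.H39E

open H667R3 Pool.Agent.W245.EB Pool.Agent.TH813.Ell Pool.Agent.Y685
open Pool.Agent.TH813.Rel (DF MK subset_cl rk_le_of_subset_cl cl_of_base exists_derF mem_cl
  toENat_trdeg)
open Pool.Agent.Y776 (jf ET ET_finite)

variable {n : ℕ} {L L' : PeriodPair} {c : ℂ} {K : Subfield ℂ}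

theorem kL_mem' (hK : ∀ x, IsAlgebraic K x → x ∈ K) {a : ℂ} (ha : a ∈ kL L) : a ∈ K := by
  by_contra hcon
  have htr : Transcendental (IFd K) a := fun h => hcon (hK a h)
  have hai : AlgebraicIndependent (IFd K) (fun _ : Unit => a) :=
    algebraicIndependent_unique_type_iff.2 htr
  obtain ⟨D, -, hD⟩ := exists_derF (IFd K) hai (fun _ => 1)
  have h1 := der_kL D ha
  rw [hD ()] at h1
  exact one_ne_zero h1

theorem KL_nil (L : PeriodPair) : KL L [] = kL L :=
  le_antisymm (KL_le le_rfl (fun _ hx => absurd hx List.not_mem_nil)) (kL_le_KL L [])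

/-- the special dimension is at most the dimension over the field of a generic list -/
theorem special_le {S : Set ℂ} (hS : S.Countable) (l : List ℂ)
    (hl : Gen (fun a => (CG hS a).1) l) (p : Fin n → ℂ) :
    Sp (CG hS []).1 L p (dE (KL L l) p) := by
  intro c hc r q hq hqp hqC
  have key : ∀ l : List ℂ, Gen (fun a => (CG hS a).1) l →
      r ≤ dE (KL L l) (fun i => c * q i) := by
    intro l hl
    induction l with
    | nil =>
      have h1 : dE (KL L []) (fun i => c * q i) = dE (kL L) (fun i => c * q i) := by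
        rw [KL_nil]
      rw [h1, dE_scale _ hc, dE_li hq]
    | cons a l ih =>
      refine (ih hl.2).trans ?_
      have hK := (CG hS l).2.alg
      refine disj hK (fun x hx => ?_) hl.1 (KL_frac a l) (KL_cons_le a l) _
        (fun i => CG_nil_le hS l (hqC i))
      have h1 : KL L l ≤ IFd (CG hS l).1 :=
        KL_le (fun y hy => kL_mem' hK hy) (fun y hy => CG_list hS l y hy)
      exact h1 hx
  have h1 := key l hl
  rw [dE_scale _ hc] at h1
  exact h1.trans (dE_mono (fun i => span_kL_le l (hqp i)))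

/-- the dimension of `V + u V` -/
theorem dim_two {u : ℂ} (hu : Transcendental (kL L) u) (V : Submodule (kL L) ℂ)
    [FiniteDimensional (kL L) V] :
    finrank (kL L) V + finrank (KL L [u]) (Submodule.span (KL L [u]) (V : Set ℂ)) ≤
      finrank (kL L) (V ⊔ V.map (LinearMap.mulLeft (kL L) u) : Submodule (kL L) ℂ) := by
  classical
  have hu0 : u ≠ 0 := by
    rintro rfl
    exact hu isAlgebraic_zero
  obtain ⟨μ, hμ⟩ : ∃ μ : ℂ →ₗ[kL L] ℂ, μ = LinearMap.mulLeft (kL L) u := ⟨_, rfl⟩
  have hμx : ∀ x, μ x = u * x := fun x => by rw [hμ]; rfl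
  rw [← hμ]
  have hμi : Function.Injective μ := by
    rw [hμ]
    exact mul_right_injective₀ hu0
  obtain ⟨U, hU⟩ : ∃ U : Submodule (kL L) ℂ, U = V ⊓ V.comap μ := ⟨_, rfl⟩
  have hUV : U ≤ V := hU ▸ inf_le_left
  have hUf : FiniteDimensional (kL L) U := Submodule.finiteDimensional_of_le hUV
  have h1 : V ⊓ V.map μ = U.map μ := by
    rw [hU]
    ext x
    constructor
    · rintro ⟨hx, v, hv, rfl⟩
      exact ⟨v, ⟨hv, hx⟩, rfl⟩
    · rintro ⟨v, ⟨hv, hv'⟩, rfl⟩
      exact ⟨hv', v, hv, rfl⟩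
  have h2 := Submodule.finrank_sup_add_finrank_inf_eq V (V.map μ)
  rw [h1] at h2
  have h3 : finrank (kL L) (U.map μ) = finrank (kL L) U :=
    (Submodule.equivMapOfInjective μ hμi U).finrank_eq.symm
  have h4 : finrank (kL L) (V.map μ) = finrank (kL L) V :=
    (Submodule.equivMapOfInjective μ hμi V).finrank_eq.symm
  obtain ⟨Y, hYV, hYU, hYn⟩ := exists_rel_compl hUV
  have hYf : FiniteDimensional (kL L) Y := Submodule.finiteDimensional_of_le hYV
  have hsup : Y ⊔ U = V := by
    apply Submodule.eq_of_le_of_finrank_eq (sup_le hYV hUV)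
    have h5 := Submodule.finrank_sup_add_finrank_inf_eq Y U
    rw [hYU, finrank_bot] at h5
    omega
  -- the space generated by the complement
  obtain ⟨M, hM⟩ : ∃ M, M = Submodule.span (KL L [u]) (Y : Set ℂ) := ⟨_, rfl⟩
  have hYM : ∀ y ∈ Y, y ∈ M := fun y hy => hM ▸ Submodule.subset_span hy
  have hUM : ∀ x ∈ U, x ∈ M := by
    obtain ⟨b, hb⟩ : ∃ b, b = finBasis (kL L) U := ⟨_, rfl⟩
    obtain ⟨w, hw⟩ : ∃ w : Fin (finrank (kL L) U) → ℂ, w = fun i => (b i : ℂ) := ⟨_, rfl⟩
    have hrep : ∀ x ∈ U, ∃ g : Fin (finrank (kL L) U) → kL L, x = ∑ j, (g j : ℂ) * w j := by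
      intro x hx
      refine ⟨b.repr ⟨x, hx⟩, ?_⟩
      have h6 := congrArg (Submodule.subtype U) (b.sum_repr ⟨x, hx⟩)
      rw [map_sum] at h6
      rw [hw]
      exact h6.symm
    have hstep : ∀ i, ∃ (y : ℂ) (g : Fin (finrank (kL L) U) → kL L), y ∈ Y ∧
        u * w i = y + ∑ j, (g j : ℂ) * w j := by
      intro i
      have h5 : (b i : ℂ) ∈ V ⊓ V.comap μ := hU ▸ (b i).2
      have h6 : u * w i ∈ Y ⊔ U := by
        rw [hsup, ← hμx, hw]
        exact h5.2
      obtain ⟨y, hy, z, hz, hyz⟩ := Submodule.mem_sup.1 h6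
      obtain ⟨g, hg⟩ := hrep z hz
      exact ⟨y, g, hy, by rw [← hyz, ← hg]⟩
    choose y A hy hA using hstep
    -- the matrices
    obtain ⟨uE, huE⟩ : ∃ uE : KL L [u], (uE : ℂ) = u := ⟨⟨u, mem_KL (by simp)⟩, rfl⟩
    obtain ⟨B, hB⟩ : ∃ B : Matrix (Fin (finrank (kL L) U)) (Fin (finrank (kL L) U)) (KL L [u]),
        B = Matrix.scalar _ uE - Matrix.of
          (fun i j => (⟨(A i j : ℂ), kL_le_KL L [u] (A i j).2⟩ : KL L [u])) := ⟨_, rfl⟩
    obtain ⟨B', hB'⟩ : ∃ B' : Matrix (Fin (finrank (kL L) U)) (Fin (finrank (kL L) U)) ℂ,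
        B' = (algebraMap (KL L [u]) ℂ).mapMatrix B := ⟨_, rfl⟩
    have hB'' : B' = Matrix.scalar _ u - (Matrix.of A).map (algebraMap (kL L) ℂ) := by
      rw [hB', hB, map_sub]
      congr 1
      ext i j
      by_cases hij : i = j
      · subst hij
        simp only [RingHom.mapMatrix_apply, Matrix.map_apply, Matrix.scalar_apply,
          Matrix.diagonal_apply_eq]
        exact huE
      · simp only [RingHom.mapMatrix_apply, Matrix.map_apply, Matrix.scalar_apply,
          Matrix.diagonal_apply_ne _ hij, map_zero]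
    have hdet : B'.det ≠ 0 := by
      rw [hB'', ← Matrix.eval_charpoly, Matrix.charpoly_map, Polynomial.eval_map_algebraMap]
      exact fun h => hu ⟨_, (Matrix.charpoly_monic _).ne_zero, h⟩
    have hBw : B'.mulVec w = y := by
      rw [hB'', Matrix.sub_mulVec]
      funext i
      rw [Pi.sub_apply]
      have e1 : (Matrix.scalar (Fin (finrank (kL L) U)) u).mulVec w i = u * w i := by
        rw [Matrix.scalar_apply, Matrix.mulVec_diagonal]
      have e2 : ((Matrix.of A).map (algebraMap (kL L) ℂ)).mulVec w i =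
          ∑ j, (A i j : ℂ) * w j := rfl
      rw [e1, e2, hA i]
      ring
    have hdE : algebraMap (KL L [u]) ℂ B.det = B'.det := by
      rw [hB', RingHom.map_det]
    have hBdet : B.det ≠ 0 := by
      intro h0
      apply hdet
      rw [← hdE, h0, map_zero]
    have hadj : ∀ j, B'.det * w j = ∑ i, ((B.adjugate j i : KL L [u]) : ℂ) * y i := by
      intro j
      have h5 : B'.adjugate.mulVec (B'.mulVec w) = B'.adjugate.mulVec y := by rw [hBw]
      rw [Matrix.mulVec_mulVec, Matrix.adjugate_mul, Matrix.smul_mulVec, Matrix.one_mulVec] at h5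
      have h6 := congrFun h5 j
      rw [Pi.smul_apply, smul_eq_mul] at h6
      rw [h6]
      have h7 : B'.adjugate = (algebraMap (KL L [u]) ℂ).mapMatrix B.adjugate := by
        rw [RingHom.map_adjugate, hB']
      rw [h7]
      rfl
    have hwM : ∀ j, w j ∈ M := by
      intro j
      have h5 : w j = B.det⁻¹ • ∑ i, (B.adjugate j i) • y i := by
        have h6 : (∑ i, (B.adjugate j i) • y i) = B'.det * w j := (hadj j).symm
        rw [h6, ← hdE]
        change w j = ((B.det⁻¹ : KL L [u]) : ℂ) * ((B.det : ℂ) * w j)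
        have h7 : ((B.det⁻¹ : KL L [u]) : ℂ) = ((B.det : KL L [u]) : ℂ)⁻¹ := rfl
        have h8 : ((B.det : KL L [u]) : ℂ) ≠ 0 := fun h => hBdet (Subtype.ext h)
        rw [h7, inv_mul_cancel_left₀ h8]
      rw [h5]
      exact Submodule.smul_mem _ _ (sum_mem (fun i _ => Submodule.smul_mem _ _ (hYM _ (hy i))))
    intro x hx
    obtain ⟨g, hg⟩ := hrep x hx
    rw [hg]
    exact sum_mem (fun j _ => Submodule.smul_mem M
      (⟨(g j : ℂ), kL_le_KL L [u] (g j).2⟩ : KL L [u]) (hwM j))
  have hspan : Submodule.span (KL L [u]) (V : Set ℂ) ≤ M := by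
    rw [Submodule.span_le]
    intro x hx
    rw [← hsup] at hx
    obtain ⟨y, hy, z, hz, rfl⟩ := Submodule.mem_sup.1 hx
    exact add_mem (hYM y hy) (hUM z hz)
  have hMr : M = Submodule.span (KL L [u]) (Set.range fun i => ((finBasis (kL L) Y) i : ℂ)) := by
    rw [hM]
    apply le_antisymm
    · rw [Submodule.span_le]
      intro x hx
      have h6 := congrArg (Submodule.subtype Y) ((finBasis (kL L) Y).sum_repr ⟨x, hx⟩)
      rw [map_sum] at h6
      have h7 : x = ∑ i, (((finBasis (kL L) Y).repr ⟨x, hx⟩ i : kL L) : ℂ) *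
          ((finBasis (kL L) Y) i : ℂ) := h6.symm
      rw [h7]
      exact sum_mem (fun j _ => Submodule.smul_mem _
        (⟨(((finBasis (kL L) Y).repr ⟨x, hx⟩ j : kL L) : ℂ), kL_le_KL L [u]
          ((finBasis (kL L) Y).repr ⟨x, hx⟩ j).2⟩ : KL L [u]) (Submodule.subset_span ⟨j, rfl⟩))
    · rw [Submodule.span_le]
      rintro _ ⟨i, rfl⟩
      exact Submodule.subset_span ((finBasis (kL L) Y) i).2
  have hMf : FiniteDimensional (KL L [u]) M := by
    rw [hMr]
    exact fd_span _ _
  have h5 : finrank (KL L [u]) (Submodule.span (KL L [u]) (V : Set ℂ)) ≤ finrank (kL L) Y := by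
    refine (Submodule.finrank_mono hspan).trans ?_
    rw [hMr]
    refine (finrank_range_le_card _).trans ?_
    rw [Fintype.card_fin]
  omega

end Pool.Agent.H39E
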