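import Mathlib
import Pool.Agent.H39E.GP4

/-!
# Generic multipliers: transcendence degrees
-/

set_option autoImplicit false

open Filter Finset Module
open scoped Topology PeriodPair ComplexConjugate

noncomputable section

namespace Pool.Agent.H39E

open H667R3 Pool.Agent.W245.EB Pool.Agent.TH813.Ell Pool.Agent.Y685
open Pool.Agent.TH813.Rel (DF MK subset_cl rk_le_of_subset_cl cl_of_base exists_derF mem_cl
  toENat_trdeg)

variable {n : ℕ} {L : PeriodPair} {k : Type} [Field k] [Algebra k ℂ]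

/-- the values at the points of a space outside the lattice -/
def Vals (L : PeriodPair) (V : Submodule (kL L) ℂ) : Set ℂ :=
  {L.g₂, L.g₃} ∪ (℘[L] '' ((V : Set ℂ) \ (L.lattice : Set ℂ)) ∪
    zeta L '' ((V : Set ℂ) \ (L.lattice : Set ℂ)))

theorem trd_mono {A B : Set ℂ} (h : A ⊆ B) :
    Algebra.trdeg k (IntermediateField.adjoin k A) ≤
      Algebra.trdeg k (IntermediateField.adjoin k B) :=
  trdeg_le_of_injective (IntermediateField.inclusion (IntermediateField.adjoin.mono k A B h))
    (IntermediateField.inclusion_injective _)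

/-- a basis of a space -/
theorem exists_fam (V : Submodule (kL L) ℂ) [FiniteDimensional (kL L) V] :
    ∃ p : Fin (finrank (kL L) V) → ℂ, LinearIndependent (kL L) p ∧
      Submodule.span (kL L) (Set.range p) = V := by
  obtain ⟨p, hp, hpV, -⟩ := exists_basis_off V
  refine ⟨p, hp, ?_⟩
  have h2 : Submodule.span (kL L) (Set.range p) ≤ V := by
    rw [Submodule.span_le]
    rintro _ ⟨i, rfl⟩
    exact hpV i
  exact Submodule.eq_of_le_of_finrank_eq h2 (by
    rw [finrank_span_eq_card hp, Fintype.card_fin])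

theorem span_KL (u : List ℂ) {V : Submodule (kL L) ℂ} {p : Fin n → ℂ}
    (h : Submodule.span (kL L) (Set.range p) = V) :
    Submodule.span (KL L u) (Set.range p) = Submodule.span (KL L u) (V : Set ℂ) := by
  apply le_antisymm
  · rw [Submodule.span_le]
    rintro _ ⟨i, rfl⟩
    apply Submodule.subset_span
    rw [← h]
    exact Submodule.subset_span ⟨i, rfl⟩
  · rw [Submodule.span_le]
    intro x hx
    rw [← h] at hx
    exact span_kL_le u hx

theorem final {S : Set ℂ} (hS : S.Countable) (hk : ∀ x : k, algebraMap k ℂ x ∈ (CG hS []).1)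
    (l : List ℂ) (hl : Gen (fun a => (CG hS a).1) l) (L : PeriodPair)
    (V : Submodule (kL L) ℂ) [FiniteDimensional (kL L) V] (m : ℕ) (hm : 1 ≤ m)
    (hsp : ∀ c : ℂ, c ≠ 0 → ∀ U ≤ V, (∀ x ∈ U, c * x ∈ (CG hS []).1) → finrank (kL L) U ≤ m) :
    ((2 * finrank (kL L) V + l.length : ℕ) : Cardinal) ≤
      Algebra.trdeg k (IntermediateField.adjoin k ({x | x ∈ l} ∪ Vals L V)) +
      ((m + finrank (KL L l) (Submodule.span (KL L l) (V : Set ℂ)) : ℕ) : Cardinal) := by
  obtain ⟨p, hp, hpV⟩ := exists_fam V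
  have hsp' : Sp (CG hS []).1 L p m := by
    intro c hc r q hq hqp hqC
    have h1 := hsp c hc (Submodule.span (kL L) (Set.range q)) (by
      rw [Submodule.span_le]
      rintro _ ⟨i, rfl⟩
      rw [← hpV]
      exact hqp i) (by
      intro x hx
      obtain ⟨a, rfl⟩ := (Submodule.mem_span_range_iff_exists_fun (kL L)).1 hx
      rw [mul_sum]
      refine sum_mem (fun i _ => ?_)
      have e1 : c * (a i • q i) = (a i : ℂ) * (c * q i) := by
        change c * ((a i : ℂ) * q i) = _
        ring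
      rw [e1]
      exact mul_mem (kL_mem' (CG hS []).2.alg (a i).2) (hqC i))
    rwa [finrank_span_eq_card hq, Fintype.card_fin] at h1
  obtain ⟨N, q, hqp, hqL, h⟩ := main2 hS hk l hl L _ p m hm hp hsp'
  have hd : dE (KL L l) p = finrank (KL L l) (Submodule.span (KL L l) (V : Set ℂ)) := by
    unfold dE
    rw [span_KL l hpV]
  have hfin : (({L.g₂, L.g₃} ∪ PZ L q) ∪ {x | x ∈ l}).Finite :=
    ((Set.toFinite _).union (PZ_finite _)).union (list_finite l)
  obtain ⟨r, hr, hr'⟩ := trd_eq k hfin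
  have hsub : ({L.g₂, L.g₃} ∪ PZ L q) ∪ {x | x ∈ l} ⊆ {x | x ∈ l} ∪ Vals L V := by
    rintro x ((hx | ⟨i, rfl⟩ | ⟨i, rfl⟩) | hx)
    · exact Or.inr (Or.inl hx)
    · refine Or.inr (Or.inr (Or.inr ⟨q i, ⟨?_, hqL i⟩, ?_⟩))
      · rw [← hpV]
        exact hqp i
      · exact (zt_of_notMem (hqL i)).symm
    · refine Or.inr (Or.inr (Or.inl ⟨q i, ⟨?_, hqL i⟩, rfl⟩))
      rw [← hpV]
      exact hqp i
    · exact Or.inl hx
  have h1 := trd_mono (k := k) hsub
  rw [hr'] at h1
  rw [hr, hd] at h
  have h2 : 2 * finrank (kL L) V + l.length ≤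
      r + (m + finrank (KL L l) (Submodule.span (KL L l) (V : Set ℂ))) := by exact_mod_cast h
  refine le_trans ?_ (add_le_add_left h1 _)
  exact_mod_cast h2

/-- the inequality without special dimension -/
theorem final_two {S : Set ℂ} (hS : S.Countable)
    (hk : ∀ x : k, algebraMap k ℂ x ∈ (CG hS []).1)
    (l : List ℂ) (hl : Gen (fun a => (CG hS a).1) l) (L : PeriodPair)
    (V : Submodule (kL L) ℂ) [FiniteDimensional (kL L) V] :
    ((2 * finrank (kL L) V + l.length : ℕ) : Cardinal) ≤
      Algebra.trdeg k (IntermediateField.adjoin k ({x | x ∈ l} ∪ Vals L V)) +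
      ((2 * finrank (KL L l) (Submodule.span (KL L l) (V : Set ℂ)) : ℕ) : Cardinal) := by
  obtain ⟨p, hp, hpV⟩ := exists_fam V
  have hd : dE (KL L l) p = finrank (KL L l) (Submodule.span (KL L l) (V : Set ℂ)) := by
    unfold dE
    rw [span_KL l hpV]
  have hsp := special_le (L := L) hS l hl p
  rw [hd] at hsp
  have hU : ∀ c : ℂ, c ≠ 0 → ∀ U ≤ V, (∀ x ∈ U, c * x ∈ (CG hS []).1) →
      finrank (kL L) U ≤ finrank (KL L l) (Submodule.span (KL L l) (V : Set ℂ)) := by
    intro c hc U hU hUC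
    have : FiniteDimensional (kL L) U := Submodule.finiteDimensional_of_le hU
    obtain ⟨q, hq, hqU⟩ := exists_fam U
    have hqU' : ∀ i, q i ∈ U := fun i => hqU ▸ Submodule.subset_span ⟨i, rfl⟩
    exact hsp c hc _ q hq (fun i => by rw [hpV]; exact hU (hqU' i)) (fun i => hUC _ (hqU' i))
  rcases Nat.eq_zero_or_pos (finrank (KL L l) (Submodule.span (KL L l) (V : Set ℂ)))
    with h0 | h0
  · have hV : finrank (kL L) V = 0 := by
      have : FiniteDimensional (KL L l) (Submodule.span (KL L l) (V : Set ℂ)) := by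
        rw [← span_KL l hpV]
        exact fd_span _ _
      have h1 := Submodule.finrank_eq_zero.1 h0
      have h2 : V = ⊥ := by
        rw [eq_bot_iff]
        intro x hx
        have h3 : x ∈ Submodule.span (KL L l) (V : Set ℂ) := Submodule.subset_span hx
        rw [h1] at h3
        exact h3
      rw [h2, finrank_bot]
    rw [h0, hV]
    obtain ⟨r, hr, hr'⟩ := trd_eq k (list_finite l)
    have h1 := list_rank hS hk l hl
    have h2 := trd_mono (k := k) (A := {x | x ∈ l}) (B := {x | x ∈ l} ∪ Vals L V)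
      Set.subset_union_left
    rw [hr'] at h2
    rw [hr] at h1
    have h3 : l.length ≤ r := by exact_mod_cast h1
    refine le_trans ?_ ((h2).trans le_self_add)
    exact_mod_cast (by omega : 2 * 0 + l.length ≤ r)
  · have h1 := final hS hk l hl L V _ h0 hU
    refine h1.trans (le_of_eq ?_)
    rw [two_mul]

/-- the values at the points of `V + u V` -/
theorem final_mult {S : Set ℂ} (hS : S.Countable)
    (hk : ∀ x : k, algebraMap k ℂ x ∈ (CG hS []).1)
    {u : ℂ} (hu : u ∉ (CG hS []).1) (L : PeriodPair)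
    (V : Submodule (kL L) ℂ) [FiniteDimensional (kL L) V] :
    ((2 * finrank (kL L) V + 1 : ℕ) : Cardinal) ≤
      Algebra.trdeg k (IntermediateField.adjoin k
        ({u} ∪ Vals L (V ⊔ V.map (LinearMap.mulLeft (kL L) u)))) := by
  have hK := (CG hS []).2.alg
  have htr : Transcendental (kL L) u := by
    intro h
    apply hu
    apply hK
    obtain ⟨P, hP, hP'⟩ := h
    let f : kL L →+* (CG hS []).1 :=
      ⟨⟨⟨fun x => ⟨x.1, kL_mem' hK x.2⟩, rfl⟩, fun _ _ => rfl⟩, rfl, fun _ _ => rfl⟩
    refine ⟨P.map f, ?_, ?_⟩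
    · rw [Ne, Polynomial.map_eq_zero]
      exact hP
    · rw [← hP', Polynomial.aeval_def, Polynomial.eval₂_map, Polynomial.aeval_def]
      rfl
  obtain ⟨W, hW⟩ : ∃ W, W = V ⊔ V.map (LinearMap.mulLeft (kL L) u) := ⟨_, rfl⟩
  have hWf : FiniteDimensional (kL L) W := by
    rw [hW]
    infer_instance
  have h1 := dim_two htr V
  have h2 := final_two (k := k) hS hk [u] ⟨hu, trivial⟩ L W
  have h3 : Submodule.span (KL L [u]) (W : Set ℂ) = Submodule.span (KL L [u]) (V : Set ℂ) := by
    apply le_antisymm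
    · rw [Submodule.span_le, hW]
      intro x hx
      obtain ⟨y, hy, z, ⟨v, hv, rfl⟩, rfl⟩ := Submodule.mem_sup.1 hx
      refine add_mem (Submodule.subset_span hy) ?_
      change u * v ∈ _
      exact Submodule.smul_mem _ (⟨u, mem_KL (by simp)⟩ : KL L [u]) (Submodule.subset_span hv)
    · exact Submodule.span_mono (fun x hx => by
        rw [hW]
        exact Submodule.mem_sup_left hx)
  rw [h3, hW] at h2
  have h4 : {x | x ∈ [u]} = {u} := by
    ext x
    simp
  rw [h4] at h2
  rw [← hW] at h1 h2 ⊢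
  obtain ⟨d, hd⟩ : ∃ d, d = finrank (KL L [u]) (Submodule.span (KL L [u]) (V : Set ℂ)) :=
    ⟨_, rfl⟩
  rw [← hd] at h1 h2
  have h5 : ((2 * finrank (kL L) V + 1 : ℕ) : Cardinal) + ((2 * d : ℕ) : Cardinal) ≤
      Algebra.trdeg k (IntermediateField.adjoin k ({u} ∪ Vals L W)) +
        ((2 * d : ℕ) : Cardinal) := by
    refine le_trans ?_ h2
    have h6 : 2 * finrank (kL L) V + 1 + 2 * d ≤ 2 * finrank (kL L) W + [u].length := by
      rw [List.length_singleton]
      omega
    exact_mod_cast h6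
  exact (Cardinal.add_le_add_iff_of_lt_aleph0 (Cardinal.natCast_lt_aleph0)).1 h5

end Pool.Agent.H39E
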